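import Mathlib
import Pool.Agent.W301.SS.Vino
import Pool.Agent.TH915.PW.PrimeSum
import Pool.Agent.TH869.LPS.WeylQ
import Pool.Agent.TH915.PW.Dioph

/-!
Equidistribution with a power saving along the primes and along polynomials, from a Diophantine
condition at the scale `N`.
-/

set_option autoImplicit false

open Finset Polynomial

namespace Pool.Agent.Z3h92

open Pool.Agent.W301.SS (SL VB vino)
open Pool.Agent.TH915.PW (disc abel_bound prime_bound e_sub e_natmul e_int)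
open Pool.Agent.H469R2.NK (e norm_e e_add e_zero)

/-- no small multiple of `x` is very close to an integer -/
def Dio (η : ℝ) (N : ℕ) (x : ℝ) : Prop :=
  ∀ m : ℕ, 1 ≤ m → (m : ℝ) ≤ (N : ℝ) ^ η → ∀ z : ℤ, (N : ℝ) ^ (η - 1) < |m * x - z|

lemma Dio.int {η : ℝ} {N : ℕ} {x : ℝ} (h : Dio η N x) (m : ℤ) (hm : m ≠ 0)
    (hle : |(m : ℝ)| ≤ (N : ℝ) ^ η) (z : ℤ) : (N : ℝ) ^ (η - 1) < |m * x - z| := by
  obtain ⟨k, hk | hk⟩ := m.eq_nat_or_neg
  · subst hk
    rw [Int.cast_natCast, Nat.abs_cast] at hle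
    have hk0 : 1 ≤ k := by
      rw [Nat.one_le_iff_ne_zero]
      rintro rfl
      exact hm rfl
    have := h k hk0 hle z
    rwa [Int.cast_natCast]
  · subst hk
    rw [Int.cast_neg, abs_neg, Int.cast_natCast, Nat.abs_cast] at hle
    have hk0 : 1 ≤ k := by
      rw [Nat.one_le_iff_ne_zero]
      rintro rfl
      exact hm rfl
    have h1 := h k hk0 hle (-z)
    have e1 : ((-(k : ℤ) : ℤ) : ℝ) * x - z = -((k : ℝ) * x - ((-z : ℤ) : ℝ)) := by
      push_cast; ring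
    rwa [e1, abs_neg]

lemma ee_eq_e (x : ℝ) : Pool.Agent.H807R2.Dav.ee x = e x := by
  unfold Pool.Agent.H807R2.Dav.ee e
  congr 1
  push_cast
  ring

lemma log_pow_le (ε : ℝ) (hε : 0 < ε) : ∃ C : ℝ, 0 < C ∧ ∀ N : ℕ, 1 ≤ N →
    (1 + Real.log N) ^ 7 ≤ C * (N : ℝ) ^ ε := by
  refine ⟨(1 + 1 / (ε / 7)) ^ 7, by positivity, fun N hN => ?_⟩
  have hN1 : (1 : ℝ) ≤ N := by exact_mod_cast hN
  have h0 : 0 ≤ Real.log N := Real.log_nonneg hN1
  have h1 : Real.log N ≤ (N : ℝ) ^ (ε / 7) / (ε / 7) := Real.log_le_rpow_div (by linarith) (by linarith)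
  have h2 : (1 : ℝ) ≤ (N : ℝ) ^ (ε / 7) := Real.one_le_rpow hN1 (by positivity)
  have h3 : 1 + Real.log N ≤ (1 + 1 / (ε / 7)) * (N : ℝ) ^ (ε / 7) := by
    calc 1 + Real.log N ≤ (N : ℝ) ^ (ε / 7) + (N : ℝ) ^ (ε / 7) / (ε / 7) := add_le_add h2 h1
      _ = _ := by ring
  calc (1 + Real.log N) ^ 7 ≤ ((1 + 1 / (ε / 7)) * (N : ℝ) ^ (ε / 7)) ^ 7 :=
        pow_le_pow_left₀ (by linarith) h3 7
    _ = (1 + 1 / (ε / 7)) ^ 7 * (N : ℝ) ^ ε := by
      rw [mul_pow, ← Real.rpow_natCast ((N : ℝ) ^ (ε / 7)), ← Real.rpow_mul (by linarith)]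
      congr 2
      push_cast
      ring

/-- the exponential sum over the primes, from the bound for the sum with the weights `Λ` -/
lemma prime_exp (N : ℕ) (hN : 2 ≤ N) (y E : ℝ)
    (hE : ∀ n : ℕ, 1 ≤ n → n ≤ N → ‖SL n y‖ ≤ E) :
    ‖∑ p ∈ (range (N + 1)).filter Nat.Prime, e (p * y)‖ ≤
      2 * (E + 2 * √(N : ℝ) * Real.log N) := by
  have hN1 : (1 : ℝ) ≤ N := by exact_mod_cast (by omega : 1 ≤ N)
  have hlogN : 0 ≤ Real.log N := Real.log_nonneg hN1
  have h1 : ∀ t : ℕ, 1 < t → t ≤ N →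
      ‖∑ n ∈ Ioc 1 t, (((if n.Prime then Real.log n else 0 : ℝ)) : ℂ) * e (n * y)‖ ≤
        E + 2 * √(N : ℝ) * Real.log N := by
    intro t ht htN
    have h2 : ‖∑ n ∈ Ioc 1 t, ((ArithmeticFunction.vonMangoldt n : ℝ) : ℂ) * e (n * y)‖ ≤ E := by
      have h3 := hE t (by omega) htN
      unfold SL at h3
      have h4 : ∑ n ∈ Icc 1 t, ((ArithmeticFunction.vonMangoldt n : ℝ) : ℂ) *
          Pool.Agent.H807R2.Dav.ee ((n : ℝ) * y) =
          ∑ n ∈ Ioc 1 t, ((ArithmeticFunction.vonMangoldt n : ℝ) : ℂ) * e (n * y) := by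
        rw [← Finset.Ioc_insert_left (by omega : 1 ≤ t), sum_insert (by simp)]
        rw [ArithmeticFunction.vonMangoldt_apply_one]
        simp only [Complex.ofReal_zero, zero_mul, zero_add, ee_eq_e]
      rwa [h4] at h3
    have h5 := prime_bound 1 t (by omega) (fun n => e (n * y)) (fun n => (norm_e _).le) E h2
    have htR : (t : ℝ) ≤ N := by exact_mod_cast htN
    have ht0 : (1 : ℝ) ≤ t := by exact_mod_cast (by omega : 1 ≤ t)
    have h6 : √(t : ℝ) * Real.log t ≤ √(N : ℝ) * Real.log N :=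
      mul_le_mul (Real.sqrt_le_sqrt htR) (Real.log_le_log (by linarith) htR)
        (Real.log_nonneg ht0) (Real.sqrt_nonneg _)
    nlinarith
  have h7 := abel_bound (fun n => 1 / Real.log n)
    (fun n => (((if n.Prime then Real.log n else 0 : ℝ)) : ℂ) * e (n * y)) 1
    (E + 2 * √(N : ℝ) * Real.log N)
    (fun n hn => by
      have : (1 : ℝ) ≤ n := by exact_mod_cast hn.le
      have := Real.log_nonneg this
      positivity)
    (fun n hn => by
      have h8 : (1 : ℝ) < n := by exact_mod_cast hn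
      have h9 := Real.log_pos h8
      apply one_div_le_one_div_of_le h9
      apply Real.log_le_log (by linarith)
      push_cast; linarith) N (by omega) h1
  have h10 : ∑ i ∈ Ioc 1 N, (((fun n : ℕ => 1 / Real.log n) i : ℝ) : ℂ) *
      ((((if i.Prime then Real.log i else 0 : ℝ)) : ℂ) * e (i * y)) =
      ∑ p ∈ (range (N + 1)).filter Nat.Prime, e (p * y) := by
    rw [sum_filter]
    have h11 : Ioc 1 N ⊆ range (N + 1) := by
      intro i hi
      rw [mem_Ioc] at hi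
      rw [mem_range]; omega
    rw [← sum_subset h11]
    · refine sum_congr rfl fun i hi => ?_
      rw [mem_Ioc] at hi
      by_cases hp : i.Prime
      · rw [if_pos hp, if_pos hp]
        have : Real.log i ≠ 0 := by
          have : (1 : ℝ) < i := by exact_mod_cast hi.1
          exact (Real.log_pos this).ne'
        have h12 : ((Real.log i : ℝ) : ℂ) ≠ 0 := by exact_mod_cast this
        rw [← mul_assoc, Complex.ofReal_div, Complex.ofReal_one, one_div, inv_mul_cancel₀ h12,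
          one_mul]
      · rw [if_neg hp, if_neg hp]
        simp
    · intro i hi hi'
      rw [mem_range] at hi
      rw [mem_Ioc] at hi'
      rw [if_neg]
      intro hp
      exact hi' ⟨hp.one_lt, by omega⟩
  rw [h10] at h7
  refine h7.trans ?_
  have hE0 : 0 ≤ E := (norm_nonneg _).trans (hE 1 le_rfl (by omega))
  have h13 : (fun n : ℕ => 1 / Real.log n) (1 + 1) ≤ 2 := by
    simp only
    have h14 : (0.5 : ℝ) ≤ Real.log 2 := by have := Real.log_two_gt_d9; linarith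
    have h15 : (((1 + 1 : ℕ)) : ℝ) = 2 := by norm_num
    rw [h15, div_le_iff₀ (by linarith)]
    linarith
  exact mul_le_mul_of_nonneg_right h13 (by positivity)

/-- the number of the points of a sequence in an interval modulo one, from exponential sums up to
`N ^ (3 δ)` -/
lemma disc_pow {ι : Type*} (s : Finset ι) (x : ι → ℝ) (δ : ℝ) (N : ℕ) (hN : 1 ≤ N) (hδ : 0 < δ)
    (hs : s.card ≤ N) (E : ℝ) (hE0 : 0 ≤ E)
    (hE : ∀ h : ℕ, 1 ≤ h → (h : ℝ) ≤ (N : ℝ) ^ (3 * δ) → ‖∑ i ∈ s, e (h * x i)‖ ≤ E)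
    (a b : ℝ) (ha : 0 ≤ a) (hab : a ≤ b) (hb : b ≤ 1) :
    |((s.filter (fun i => a ≤ Int.fract (x i) ∧ Int.fract (x i) < b)).card : ℝ) -
      (s.card : ℝ) * (b - a)| ≤ 28 * (N : ℝ) ^ (1 - δ) + 2 * ((N : ℝ) ^ (3 * δ) * E) := by
  have hN1 : (1 : ℝ) ≤ N := by exact_mod_cast hN
  have hN0 : (0 : ℝ) < N := by linarith
  have h1 : (1 : ℝ) ≤ (N : ℝ) ^ δ := Real.one_le_rpow hN1 hδ.le
  obtain ⟨K, hK⟩ : ∃ K : ℕ, K = ⌊(N : ℝ) ^ δ⌋₊ := ⟨_, rfl⟩
  have hK1 : 1 ≤ K := by rw [hK]; exact Nat.le_floor (by simpa using h1)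
  have hKle : (K : ℝ) ≤ (N : ℝ) ^ δ := by rw [hK]; exact Nat.floor_le (by linarith)
  have hKge : (N : ℝ) ^ δ ≤ 2 * K := by
    have h2 := Nat.lt_floor_add_one ((N : ℝ) ^ δ)
    rw [← hK] at h2
    have : (1 : ℝ) ≤ K := by exact_mod_cast hK1
    linarith
  have hK0 : (0 : ℝ) < K := by exact_mod_cast hK1
  have hK3 : (K : ℝ) ^ 3 ≤ (N : ℝ) ^ (3 * δ) := by
    calc (K : ℝ) ^ 3 ≤ ((N : ℝ) ^ δ) ^ 3 := pow_le_pow_left₀ hK0.le hKle 3
      _ = (N : ℝ) ^ (3 * δ) := by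
        rw [← Real.rpow_natCast, ← Real.rpow_mul hN0.le]
        congr 1
        push_cast; ring
  refine (disc s x K hK1 E hE0 (fun h h1 h2 => hE h h1 ?_) a b ha hab hb).trans ?_
  · have : (h : ℝ) ≤ (K : ℝ) ^ 3 := by exact_mod_cast h2.le
    exact this.trans hK3
  · apply add_le_add
    · rw [div_le_iff₀ hK0]
      have h3 : (N : ℝ) ^ (1 - δ) * (N : ℝ) ^ δ = N := by
        rw [← Real.rpow_add hN0, sub_add_cancel, Real.rpow_one]
      have h4 : (s.card : ℝ) ≤ N := by exact_mod_cast hs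
      have h5 : 0 < (N : ℝ) ^ (1 - δ) := Real.rpow_pos_of_pos hN0 _
      nlinarith
    · gcongr

/-- **Primes.** -/
theorem primes_of_dio (η : ℝ) (hη : 0 < η) (hη1 : η ≤ 1 / 2) : ∃ δ : ℝ, 0 < δ ∧ ∃ B : ℝ, 0 < B ∧
    ∀ (N : ℕ) (x : ℝ), 1 ≤ N → Dio η N x → ∀ (c : ℤ) (β a b : ℝ), c ≠ 0 →
      |(c : ℝ)| ≤ (N : ℝ) ^ δ → 0 ≤ a → a ≤ b → b ≤ 1 →
      |((((range (N + 1)).filter Nat.Prime).filter (fun p : ℕ => a ≤ Int.fract (c * x * p + β) ∧
        Int.fract (c * x * p + β) < b)).card : ℝ) - (((range (N + 1)).filter Nat.Prime).card : ℝ) *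
          (b - a)| ≤ B * (N : ℝ) ^ (1 - δ) := by
  obtain ⟨C₁, hC₁, hv⟩ := vino
  obtain ⟨C₂, hC₂, hlog⟩ := log_pow_le (η / 8) (by positivity)
  refine ⟨η / 32, by positivity, 28 + 4 * (3 * C₁ * C₂ + 8), by positivity, ?_⟩
  intro N x hN hD c β a b hc hcle ha hab hb
  have hN1 : (1 : ℝ) ≤ N := by exact_mod_cast hN
  have hN0 : (0 : ℝ) < N := by linarith
  obtain ⟨δ, hδ⟩ : ∃ δ : ℝ, δ = η / 32 := ⟨_, rfl⟩
  rw [← hδ] at hcle ⊢
  have hδ0 : 0 < δ := by rw [hδ]; positivity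
  obtain ⟨s, hs⟩ : ∃ s : Finset ℕ, s = (range (N + 1)).filter Nat.Prime := ⟨_, rfl⟩
  rw [← hs]
  have hscard : s.card ≤ N := by
    have h1 : s ⊆ Icc 1 N := by
      intro p hp
      rw [hs, mem_filter, mem_range] at hp
      rw [mem_Icc]
      exact ⟨hp.2.one_lt.le, by omega⟩
    exact (card_le_card h1).trans (by simp)
  -- the exponential sums
  have hmain : ∀ h : ℕ, 1 ≤ h → (h : ℝ) ≤ (N : ℝ) ^ (3 * δ) →
      ‖∑ p ∈ s, e (h * (c * x * p + β))‖ ≤ 2 * ((3 * C₁ * C₂ + 8) * (N : ℝ) ^ (1 - η / 8)) := by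
    intro h h1 h2
    obtain ⟨y, hy⟩ : ∃ y : ℝ, y = h * (c * x) := ⟨_, rfl⟩
    have e1 : ∑ p ∈ s, e (h * (c * x * p + β)) = e (h * β) * ∑ p ∈ s, e (p * y) := by
      rw [mul_sum]
      refine sum_congr rfl fun p _ => ?_
      rw [← e_add, hy]
      congr 1
      ring
    rw [e1, norm_mul, norm_e, one_mul]
    rcases Nat.lt_or_ge N 2 with hN2 | hN2
    · have hN' : N = 1 := by omega
      have hs0 : s = ∅ := by
        rw [hs, hN']
        decide
      rw [hs0, sum_empty, norm_zero]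
      positivity
    -- Dirichlet
    obtain ⟨n, hn⟩ : ∃ n : ℕ, n = ⌊(N : ℝ) ^ (1 - η / 2)⌋₊ := ⟨_, rfl⟩
    have hn0 : 0 < n := by
      rw [hn]
      apply Nat.floor_pos.2
      exact Real.one_le_rpow hN1 (by linarith)
    obtain ⟨z, D, hD0, hDn, hcop, hap1, hap2⟩ :=
      Pool.Agent.TH915.PW.approx_of_dirichlet y n hn0
    have hDR : (0 : ℝ) < D := by exact_mod_cast hD0
    have hDle : (D : ℝ) ≤ (N : ℝ) ^ (1 - η / 2) := by
      calc (D : ℝ) ≤ n := by exact_mod_cast hDn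
        _ ≤ _ := by rw [hn]; exact Nat.floor_le (by positivity)
    have hDge : (N : ℝ) ^ (η / 2) ≤ D := by
      by_contra hcon
      push Not at hcon
      obtain ⟨l, hl⟩ : ∃ l : ℤ, l = D * (h * c) := ⟨_, rfl⟩
      have hl0 : l ≠ 0 := by
        rw [hl]
        have h3 : (D : ℤ) ≠ 0 := by exact_mod_cast hD0.ne'
        have h4 : (h : ℤ) ≠ 0 := by exact_mod_cast (by omega : h ≠ 0)
        exact mul_ne_zero h3 (mul_ne_zero h4 hc)
      have hlle : |(l : ℝ)| ≤ (N : ℝ) ^ η := by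
        rw [hl]
        push_cast
        rw [abs_mul, abs_mul, Nat.abs_cast, Nat.abs_cast]
        calc (D : ℝ) * (h * |(c : ℝ)|) ≤ (N : ℝ) ^ (η / 2) * ((N : ℝ) ^ (3 * δ) * (N : ℝ) ^ δ) := by
              gcongr
          _ = (N : ℝ) ^ (η / 2 + (3 * δ + δ)) := by
              rw [← Real.rpow_add hN0, ← Real.rpow_add hN0]
          _ ≤ (N : ℝ) ^ η := by
              apply Real.rpow_le_rpow_of_exponent_le hN1
              rw [hδ]; linarith
      have hclose : |(D : ℝ) * y - z| ≤ (N : ℝ) ^ (η - 1) := by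
        have e2 : (D : ℝ) * y - z = D * (y - z / D) := by field_simp
        rw [e2, abs_mul, abs_of_pos hDR]
        calc (D : ℝ) * |y - z / D| ≤ D * (1 / ((n + 1) * D)) := by gcongr
          _ = 1 / (n + 1) := by field_simp
          _ ≤ 1 / (N : ℝ) ^ (1 - η / 2) := by
              apply one_div_le_one_div_of_le (by positivity)
              rw [hn]
              exact (Nat.lt_floor_add_one _).le
          _ = (N : ℝ) ^ (-(1 - η / 2)) := by rw [Real.rpow_neg hN0.le, one_div]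
          _ ≤ (N : ℝ) ^ (η - 1) := by
              apply Real.rpow_le_rpow_of_exponent_le hN1
              linarith
      have h3 := hD.int l hl0 hlle z
      have e3 : (l : ℝ) * x = D * y := by
        rw [hl, hy]
        push_cast
        ring
      rw [e3] at h3
      linarith
    -- Vinogradov
    have hSL : ∀ m : ℕ, 1 ≤ m → m ≤ N → ‖SL m y‖ ≤ 3 * C₁ * C₂ * (N : ℝ) ^ (1 - η / 8) := by
      intro m hm hmN
      have hmR : (m : ℝ) ≤ N := by exact_mod_cast hmN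
      have hm1 : (1 : ℝ) ≤ m := by exact_mod_cast hm
      refine (hv m D hm hD0 z hcop y hap1).trans ?_
      have h3 : (1 + Real.log m) ^ 7 ≤ C₂ * (N : ℝ) ^ (η / 8) := by
        refine le_trans (pow_le_pow_left₀ ?_ ?_ 7) (hlog N hN)
        · have := Real.log_nonneg hm1; linarith
        · have := Real.log_le_log (by linarith) hmR; linarith
      have h4 : VB m D ≤ 3 * (N : ℝ) ^ (1 - η / 4) := by
        refine (Pool.Agent.W301.SS.VB_mono (by positivity) hmR hDR).trans ?_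
        unfold VB
        have h5 : (N : ℝ) / √(D : ℝ) ≤ (N : ℝ) ^ (1 - η / 4) := by
          rw [div_le_iff₀ (Real.sqrt_pos.2 hDR)]
          have h6 : (N : ℝ) ^ (η / 4) ≤ √(D : ℝ) := by
            apply Real.le_sqrt_of_sq_le
            rw [← Real.rpow_natCast, ← Real.rpow_mul hN0.le]
            convert hDge using 2
            push_cast; ring
          calc (N : ℝ) = (N : ℝ) ^ (1 - η / 4) * (N : ℝ) ^ (η / 4) := by
                rw [← Real.rpow_add hN0, sub_add_cancel, Real.rpow_one]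
            _ ≤ _ := by gcongr
        have h7 : (N : ℝ) ^ (4 / 5 : ℝ) ≤ (N : ℝ) ^ (1 - η / 4) := by
          apply Real.rpow_le_rpow_of_exponent_le hN1
          linarith
        have h8 : √((N : ℝ) * D) ≤ (N : ℝ) ^ (1 - η / 4) := by
          apply Real.sqrt_le_iff.2
          refine ⟨by positivity, ?_⟩
          calc (N : ℝ) * D ≤ N * (N : ℝ) ^ (1 - η / 2) := by gcongr
            _ = (N : ℝ) ^ (1 + (1 - η / 2)) := by rw [Real.rpow_add hN0, Real.rpow_one]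
            _ = ((N : ℝ) ^ (1 - η / 4)) ^ 2 := by
              rw [← Real.rpow_natCast, ← Real.rpow_mul hN0.le]
              congr 1
              push_cast; ring
        linarith
      have hVB0 : 0 ≤ VB m D := by
        unfold VB
        positivity
      have hlm : 0 ≤ 1 + Real.log m := by have := Real.log_nonneg hm1; linarith
      calc C₁ * (1 + Real.log m) ^ 7 * VB m D
          ≤ C₁ * (C₂ * (N : ℝ) ^ (η / 8)) * (3 * (N : ℝ) ^ (1 - η / 4)) := by gcongr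
        _ = 3 * C₁ * C₂ * ((N : ℝ) ^ (η / 8) * (N : ℝ) ^ (1 - η / 4)) := by ring
        _ = 3 * C₁ * C₂ * (N : ℝ) ^ (1 - η / 8) := by
          rw [← Real.rpow_add hN0]
          congr 2
          ring
    rw [hs]
    refine (prime_exp N hN2 y _ hSL).trans ?_
    have h9 : √(N : ℝ) * Real.log N ≤ 4 * (N : ℝ) ^ (1 - η / 8) := by
      have h10 : Real.log N ≤ (N : ℝ) ^ (1 / 4 : ℝ) / (1 / 4) :=
        Real.log_le_rpow_div hN0.le (by norm_num)
      calc √(N : ℝ) * Real.log N ≤ (N : ℝ) ^ (1 / 2 : ℝ) * ((N : ℝ) ^ (1 / 4 : ℝ) / (1 / 4)) := by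
            rw [Real.sqrt_eq_rpow]; gcongr
        _ = 4 * (N : ℝ) ^ (1 / 2 + 1 / 4 : ℝ) := by rw [Real.rpow_add hN0]; ring
        _ ≤ 4 * (N : ℝ) ^ (1 - η / 8) := by
          gcongr
          linarith
    linarith
  refine (disc_pow s (fun p : ℕ => c * x * p + β) δ N hN hδ0 hscard _ (by positivity) hmain a b ha
    hab hb).trans ?_
  have h11 : (N : ℝ) ^ (3 * δ) * (N : ℝ) ^ (1 - η / 8) = (N : ℝ) ^ (1 - δ) := by
    rw [← Real.rpow_add hN0]
    congr 1
    rw [hδ]; ring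
  calc _ = 28 * (N : ℝ) ^ (1 - δ) + 4 * (3 * C₁ * C₂ + 8) *
        ((N : ℝ) ^ (3 * δ) * (N : ℝ) ^ (1 - η / 8)) := by ring
    _ = _ := by rw [h11]; ring
    _ ≤ _ := le_rfl

lemma e'_eq_e (x : ℝ) : Pool.Agent.H332R2.Lit.e x = e x := by
  unfold Pool.Agent.H332R2.Lit.e e
  congr 1
  push_cast
  ring

/-- **Polynomials.** -/
theorem poly_of_dio (η : ℝ) (hη : 0 < η) (hη1 : η ≤ 1 / 2) (d : ℕ) : ∃ δ : ℝ, 0 < δ ∧ δ ≤ 1 ∧
    ∃ B : ℝ, 0 < B ∧ ∀ (N : ℕ) (x : ℝ), 1 ≤ N → Dio η N x → ∀ (R : ℝ[X]) (c : ℤ) (a b : ℝ),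
      R.natDegree ≤ d + 1 → R.coeff (d + 1) = c * x → c ≠ 0 →
      |(c : ℝ)| ≤ (N : ℝ) ^ δ → 0 ≤ a → a ≤ b → b ≤ 1 →
      |(((range N).filter (fun n : ℕ => a ≤ Int.fract (R.eval (n : ℝ)) ∧
        Int.fract (R.eval (n : ℝ)) < b)).card : ℝ) - N * (b - a)| ≤ B * (N : ℝ) ^ (1 - δ) := by
  obtain ⟨C, hC1, hW⟩ := Pool.Agent.TH869.LPS.weylQ d
  have hC1R : (1 : ℝ) ≤ C := by exact_mod_cast hC1
  have hC0 : (0 : ℝ) < C := by linarith
  obtain ⟨δ, hδ⟩ : ∃ δ : ℝ, δ = η / (16 * C) := ⟨_, rfl⟩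
  have hδ0 : 0 < δ := by rw [hδ]; positivity
  have hδC : δ * C = η / 16 := by rw [hδ]; field_simp
  have hδη : δ ≤ η / 16 := by
    rw [← hδC]; nlinarith
  -- the threshold
  obtain ⟨N0, hN0⟩ : ∃ N0 : ℕ, ∀ N : ℕ, N0 ≤ N → (C : ℝ) ≤ (N : ℝ) ^ (η / 4) := by
    have h1 : Filter.Tendsto (fun N : ℕ => (N : ℝ) ^ (η / 4)) Filter.atTop Filter.atTop :=
      (tendsto_rpow_atTop (by positivity)).comp tendsto_natCast_atTop_atTop
    exact Filter.eventually_atTop.1 (h1.eventually_ge_atTop (C : ℝ))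
  refine ⟨δ, hδ0, by linarith, 30 + N0, by positivity, ?_⟩
  intro N x hN hD R c a b hRd hRc hc hcle ha hab hb
  have hN1 : (1 : ℝ) ≤ N := by exact_mod_cast hN
  have hNp : (0 : ℝ) < N := by linarith
  have hpos : 0 < (N : ℝ) ^ (1 - δ) := Real.rpow_pos_of_pos hNp _
  rcases Nat.lt_or_ge N N0 with hlt | hge
  · -- trivial bound
    have h1 : (((range N).filter (fun n : ℕ => a ≤ Int.fract (R.eval (n : ℝ)) ∧
        Int.fract (R.eval (n : ℝ)) < b)).card : ℝ) ≤ N := by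
      have := card_le_card (filter_subset (fun n : ℕ => a ≤ Int.fract (R.eval (n : ℝ)) ∧
        Int.fract (R.eval (n : ℝ)) < b) (range N))
      rw [card_range] at this
      exact_mod_cast this
    have h0 : (0 : ℝ) ≤ (((range N).filter (fun n : ℕ => a ≤ Int.fract (R.eval (n : ℝ)) ∧
        Int.fract (R.eval (n : ℝ)) < b)).card : ℝ) := Nat.cast_nonneg _
    have h2 : (N : ℝ) * (b - a) ≤ N := mul_le_of_le_one_right hNp.le (by linarith)
    have h3 : 0 ≤ (N : ℝ) * (b - a) := mul_nonneg hNp.le (by linarith)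
    have h4 : (N : ℝ) ≤ N0 := by exact_mod_cast hlt.le
    have h5 : (1 : ℝ) ≤ (N : ℝ) ^ (1 - δ) := Real.one_le_rpow hN1 (by linarith)
    have h6 : |(((range N).filter (fun n : ℕ => a ≤ Int.fract (R.eval (n : ℝ)) ∧
        Int.fract (R.eval (n : ℝ)) < b)).card : ℝ) - N * (b - a)| ≤ N := by
      rw [abs_le]; constructor <;> linarith
    have h7 : (0 : ℝ) ≤ N0 := Nat.cast_nonneg _
    nlinarith
  -- the exponential sums
  have hmain : ∀ h : ℕ, 1 ≤ h → (h : ℝ) ≤ (N : ℝ) ^ (3 * δ) →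
      ‖∑ n ∈ range N, e (h * R.eval (n : ℝ))‖ ≤ (N : ℝ) ^ (-(4 * δ)) * N := by
    intro h h1 h2
    have e1 : ∀ n : ℕ, e (h * R.eval (n : ℝ)) =
        Pool.Agent.H332R2.Lit.e ((Polynomial.C (h : ℝ) * R).eval (n : ℝ)) := by
      intro n
      rw [e'_eq_e, eval_mul, eval_C]
    simp only [e1]
    have hκ1 : (N : ℝ) ^ (-(4 * δ)) ≤ 1 := by
      rw [← Real.rpow_zero (N : ℝ)]
      exact Real.rpow_le_rpow_of_exponent_le hN1 (by linarith)
    have hκi : (1 / (N : ℝ) ^ (-(4 * δ))) ^ C = (N : ℝ) ^ (η / 4) := by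
      rw [Real.rpow_neg hNp.le, one_div, inv_inv, ← Real.rpow_natCast, ← Real.rpow_mul hNp.le]
      congr 1
      calc 4 * δ * (C : ℝ) = 4 * (δ * C) := by ring
        _ = η / 4 := by rw [hδC]; ring
    apply hW _ (Real.rpow_pos_of_pos hNp _) hκ1 _ ((natDegree_C_mul_le _ _).trans hRd) N hN
    intro m hm1 hm2
    rw [hκi] at hm2 ⊢
    rw [coeff_C_mul, hRc]
    obtain ⟨l, hl⟩ : ∃ l : ℤ, l = m * (h * c) := ⟨_, rfl⟩
    have hl0 : l ≠ 0 := by
      rw [hl]
      have h3 : (m : ℤ) ≠ 0 := by exact_mod_cast (by omega : m ≠ 0)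
      have h4 : (h : ℤ) ≠ 0 := by exact_mod_cast (by omega : h ≠ 0)
      exact mul_ne_zero h3 (mul_ne_zero h4 hc)
    have hCle := hN0 N hge
    have hlle : |(l : ℝ)| ≤ (N : ℝ) ^ η := by
      rw [hl]
      push_cast
      rw [abs_mul, abs_mul, Nat.abs_cast, Nat.abs_cast]
      calc (m : ℝ) * (h * |(c : ℝ)|) ≤ (C * (N : ℝ) ^ (η / 4)) * ((N : ℝ) ^ (3 * δ) * (N : ℝ) ^ δ) := by
            gcongr
        _ ≤ ((N : ℝ) ^ (η / 4) * (N : ℝ) ^ (η / 4)) * ((N : ℝ) ^ (3 * δ) * (N : ℝ) ^ δ) := by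
            gcongr
        _ = (N : ℝ) ^ (η / 4 + η / 4 + (3 * δ + δ)) := by
            rw [← Real.rpow_add hNp, ← Real.rpow_add hNp, ← Real.rpow_add hNp]
        _ ≤ (N : ℝ) ^ η := by
            apply Real.rpow_le_rpow_of_exponent_le hN1
            linarith
    have h3 := hD.int l hl0 hlle (round ((m : ℝ) * (h * (c * x))))
    have e3 : (l : ℝ) * x = m * (h * (c * x)) := by
      rw [hl]
      push_cast
      ring
    rw [e3] at h3
    refine le_trans ?_ h3.le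
    calc (C : ℝ) * (N : ℝ) ^ (η / 4) / N ≤ ((N : ℝ) ^ (η / 4) * (N : ℝ) ^ (η / 4)) / N := by gcongr
      _ = (N : ℝ) ^ (η / 2 - 1) := by
        rw [Real.rpow_sub hNp, Real.rpow_one, ← Real.rpow_add hNp]
        congr 2
        ring
      _ ≤ (N : ℝ) ^ (η - 1) := Real.rpow_le_rpow_of_exponent_le hN1 (by linarith)
  have h10 := disc_pow (range N) (fun n : ℕ => R.eval (n : ℝ)) δ N hN hδ0 (by simp) _
    (by positivity) hmain a b ha hab hb
  rw [card_range] at h10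
  refine h10.trans ?_
  have h11 : (N : ℝ) ^ (3 * δ) * ((N : ℝ) ^ (-(4 * δ)) * N) = (N : ℝ) ^ (1 - δ) := by
    rw [← mul_assoc, ← Real.rpow_add hNp, ← Real.rpow_add_one hNp.ne']
    congr 1
    ring
  rw [h11]
  have h7 : (0 : ℝ) ≤ N0 := Nat.cast_nonneg _
  nlinarith

end Pool.Agent.Z3h92
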