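import Mathlib
import Pool.Agent.H847R3.SuppD
import Pool.Agent.H847R3.SuppE
import Pool.Agent.H819.Down3

/-!
Visits of the orbit `p ^ i q ^ j x` to open sets: constants independent of the open set.
-/

set_option autoImplicit false

open Set Filter Topology MeasureTheory

namespace Pool.Agent.Z3h92

open Pool.Agent.H847R3.XpXq

/-- **Core**: the number of visits is large if some multiple is not too close to `0`; the constants
`a` and `K` do not depend on the open set. -/
theorem core_unif {p q : ℕ} (hp : 2 ≤ p) (hq : 2 ≤ q)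
    (hirr : Irrational (Real.log (p : ℝ) / Real.log (q : ℝ))) {s : ℝ}
    (hs : Gr2 p q s) :
    ∃ a : ℝ, 0 < a ∧ ∀ L : ℝ, 0 ≤ L → ∃ K : ℝ, 0 < K ∧
      ∀ U : Set TT, IsOpen U → U.Nonempty → ∃ d : ℕ, 1 ≤ d ∧ ∃ c : ℝ, 0 < c ∧
      ∃ n0 : ℕ, ∀ n : ℕ, n0 ≤ n → ∀ x : TT,
        Real.exp (-(L * (n / K))) ≤ ‖cen p q d a (n / K) • x‖ →
        c * (n : ℝ) ^ s ≤ ((hits p q n U x).ncard : ℝ) := by
  classical
  obtain ⟨r0, r, hr, hrp, a, ha, b, hb, hG⟩ := hs
  have hlq : 0 < Real.log q := Real.log_pos (by exact_mod_cast (by omega : 1 < q))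
  have hlp : 0 < Real.log p := Real.log_pos (by exact_mod_cast (by omega : 1 < p))
  refine ⟨a, ha, fun L hL => ?_⟩
  -- constants
  set K' : ℝ := 2 * (a / Real.log p) + 2 * (a / Real.log q) + L / Real.log p + 5 with hK'
  have hK'pos : 0 < K' := by positivity
  set K : ℝ := 2 * K' with hK
  have hKpos : 0 < K := by positivity
  refine ⟨K, hKpos, fun U hU hne => ?_⟩
  obtain ⟨d, hd, hdK⟩ := exists_den hp (KU_finite hp hq hirr hU hne) (KU_inv p q U)
  have hd0 : (0 : ℝ) < d := by exact_mod_cast hd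
  obtain ⟨S, hS⟩ := hit_cover (p := p) (q := q) hU (show 0 < r / d by positivity)
  set M : ℕ := ∑ s ∈ S, (s.1 + s.2) with hM
  have hMs : ∀ s ∈ S, s.1 + s.2 ≤ M := fun s hs =>
    Finset.single_le_sum (f := fun s : ℕ × ℕ => s.1 + s.2) (fun _ _ => Nat.zero_le _) hs
  refine ⟨d, hd, b * (1 / K) ^ s / (S.card + 1), by positivity, ⌈K⌉₊ + 2 * M,
    fun n hn x hcen => ?_⟩
  have hn1 : K ≤ n := by
    have h1 : (⌈K⌉₊ : ℝ) ≤ n := by exact_mod_cast (by omega : ⌈K⌉₊ ≤ n)
    exact (Nat.le_ceil _).trans h1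
  have hn2 : 2 * M ≤ n := by omega
  set T : ℝ := n / K with hT
  have hT1 : 1 ≤ T := by rw [hT, one_le_div (by positivity)]; exact hn1
  have hKT : K' * T = n / 2 := by rw [hT, hK]; field_simp
  obtain ⟨N, hGN, hN⟩ := hG T hT1
  unfold cen at hcen
  set A := ⌊a * T / Real.log p⌋₊ + 1 with hA
  set B := ⌊a * T / Real.log q⌋₊ with hB
  set t : ℝ := L * T with ht
  set I := ⌈t / Real.log p⌉₊ with hI
  have hA1 : a * T < (A + 1) * Real.log p := by
    have h1 := Nat.lt_floor_add_one (a * T / Real.log p)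
    rw [div_lt_iff₀ hlp] at h1
    rw [hA]; push_cast
    nlinarith
  have hB1 : a * T < (B + 1) * Real.log q := by
    have := Nat.lt_floor_add_one (a * T / Real.log q)
    rwa [div_lt_iff₀ hlq] at this
  have hI1 : t ≤ I * Real.log p := by
    have := Nat.le_ceil (t / Real.log p)
    rwa [div_le_iff₀ hlp] at this
  have hA2 : (A : ℝ) ≤ a * T / Real.log p + 1 := by
    rw [hA]; push_cast
    have : (⌊a * T / Real.log p⌋₊ : ℝ) ≤ a * T / Real.log p := Nat.floor_le (by positivity)
    linarith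
  have hB2 : (B : ℝ) ≤ a * T / Real.log q := Nat.floor_le (by positivity)
  have ht0 : 0 ≤ t := by positivity
  have hI2 : (I : ℝ) ≤ L * T / Real.log p + 1 := by
    rw [hI, ht]
    exact (Nat.ceil_lt_add_one (by positivity)).le
  -- the size of the box
  have e : K' * T =
      2 * (a * T / Real.log p) + 2 * (a * T / Real.log q) + L * T / Real.log p + 5 * T := by
    rw [hK']; ring
  have hbox1 : (2 * A + I + 1 : ℝ) ≤ n / 2 := by
    rw [← hKT, e]
    have : 0 ≤ a * T / Real.log q := by positivity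
    have h7 : a * T / Real.log p + 1 ≤ a * T / Real.log p + T := by linarith
    linarith
  have hbox2 : (2 * B + 1 : ℝ) ≤ n / 2 := by
    rw [← hKT, e]
    have h1 : 0 ≤ a * T / Real.log p := by positivity
    have h2 : 0 ≤ L * T / Real.log p := by positivity
    linarith
  have hbox1' : 2 * (2 * A + I + 1) ≤ n := by
    have : (2 * (2 * A + I + 1) : ℝ) ≤ n := by linarith
    exact_mod_cast this
  have hbox2' : 2 * (2 * B + 1) ≤ n := by
    have : (2 * (2 * B + 1) : ℝ) ≤ n := by linarith
    exact_mod_cast this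
  -- the centre is not too close to `0`
  rw [mul_nsmul'] at hcen
  have hcount := Pool.Agent.H819.count_far2 hp hq hrp hGN hA1 hB1 hI1 (d • x) hcen
  set P := (Finset.range (2 * A + I + 1) ×ˢ Finset.range (2 * B + 1)).filter
      (fun u => r ≤ ‖(p ^ u.1 * q ^ u.2) • (d • x)‖) with hP
  set H : Set (ℕ × ℕ) := hits p q n U x with hH
  have hHfin : H.Finite := by
    apply ((Finset.range (n + 1) ×ˢ Finset.range (n + 1)).finite_toSet).subset
    intro u hu
    simp only [Finset.coe_product, mem_prod, Finset.mem_coe, Finset.mem_range]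
    exact ⟨by have := hu.1; omega, by have := hu.2.1; omega⟩
  have hHc : H.ncard = hHfin.toFinset.card := Set.ncard_eq_toFinset_card _ hHfin
  have hsub : P ⊆ S.biUnion fun v => P.filter fun u => u + v ∈ H := by
    intro u hu
    rw [Finset.mem_biUnion]
    rw [hP, Finset.mem_filter, Finset.mem_product, Finset.mem_range, Finset.mem_range] at hu
    obtain ⟨⟨hu1, hu2⟩, hu3⟩ := hu
    have hfar : ∀ k ∈ KU p q U, r / d ≤ dist ((p ^ u.1 * q ^ u.2) • x) k := by
      intro k hk
      have e1 : (p ^ u.1 * q ^ u.2) • (d • x) =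
          d • ((p ^ u.1 * q ^ u.2) • x - k) := by
        rw [nsmul_sub, hdK k hk, sub_zero, ← mul_nsmul', ← mul_nsmul', mul_comm]
      rw [e1] at hu3
      have h6 := norm_smul_le d ((p ^ u.1 * q ^ u.2) • x - k)
      rw [dist_eq_norm, div_le_iff₀ hd0]
      linarith
    obtain ⟨v, hv, hvU⟩ := hS _ hfar
    refine ⟨v, hv, ?_⟩
    rw [Finset.mem_filter]
    refine ⟨?_, ?_⟩
    · rw [hP, Finset.mem_filter, Finset.mem_product, Finset.mem_range, Finset.mem_range]
      exact ⟨⟨hu1, hu2⟩, hu3⟩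
    · have hMv := hMs v hv
      rw [← mul_nsmul'] at hvU
      refine ⟨?_, ?_, ?_⟩
      · change u.1 + v.1 ≤ n
        omega
      · change u.2 + v.2 ≤ n
        omega
      · change (p ^ (u.1 + v.1) * q ^ (u.2 + v.2)) • x ∈ U
        convert hvU using 2
        ring
  have hcard : P.card ≤ S.card * H.ncard := by
    calc P.card ≤ (S.biUnion fun v => P.filter fun u => u + v ∈ H).card := Finset.card_le_card hsub
      _ ≤ ∑ v ∈ S, (P.filter fun u => u + v ∈ H).card := Finset.card_biUnion_le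
      _ ≤ ∑ v ∈ S, H.ncard := by
          refine Finset.sum_le_sum fun v _ => ?_
          rw [hHc]
          refine Finset.card_le_card_of_injOn (fun u => u + v) ?_ ?_
          · intro u hu
            rw [Finset.mem_coe, Finset.mem_filter] at hu
            simpa using hu.2
          · intro u _ w _ h
            exact add_right_cancel h
      _ = S.card * H.ncard := by rw [Finset.sum_const, smul_eq_mul]
  have hN2 : (N : ℝ) ≤ (S.card + 1) * (H.ncard : ℝ) := by
    have h1 : (N : ℝ) ≤ ((S.card * H.ncard : ℕ) : ℝ) := by exact_mod_cast hcount.trans hcard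
    push_cast at h1
    have : (0 : ℝ) ≤ H.ncard := Nat.cast_nonneg _
    linarith
  have hTs : T ^ s = (1 / K) ^ s * (n : ℝ) ^ s := by
    rw [← Real.mul_rpow (by positivity) (by positivity), hT]
    congr 1
    ring
  have hSc : (0 : ℝ) < S.card + 1 := by positivity
  rw [div_mul_eq_mul_div, div_le_iff₀ hSc]
  calc b * (1 / K) ^ s * (n : ℝ) ^ s = b * T ^ s := by rw [hTs]; ring
    _ ≤ N := hN
    _ ≤ _ := hN2
    _ = _ := by ring


end Pool.Agent.Z3h92
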