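import Mathlib

/-!
Visits of the orbit `p ^ i q ^ j x` to an interval modulo one.
-/

set_option autoImplicit false

namespace Pool.Agent.Z3h92

/-- number of `i, j < n` such that the fractional part of `p ^ i q ^ j x` lies in `(α, β)` -/
noncomputable def visits (p q n : ℕ) (α β x : ℝ) : ℕ :=
  ((Finset.range n ×ˢ Finset.range n).filter (fun u : ℕ × ℕ =>
    α < Int.fract ((p : ℝ) ^ u.1 * (q : ℝ) ^ u.2 * x) ∧
      Int.fract ((p : ℝ) ^ u.1 * (q : ℝ) ^ u.2 * x) < β)).card

end Pool.Agent.Z3h92
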