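import Mathlib
import Pool.Agent.Z3h92.Core
import Pool.Agent.Z3h92.Visits
import Pool.Agent.TH461.FGK.Sup
import Pool.Agent.TH456.TM.Inst
import Pool.Agent.TH456.TM.E

/-!
Visits of the orbits of two rational combinations `(u t + P(θ)) / v` and `(u' t + P'(θ)) / v'`.
-/

set_option autoImplicit false

open Set Filter Topology MeasureTheory Polynomial

namespace Pool.Agent.Z3h92

open Pool.Agent.H847R3.XpXq Pool.Agent.TH456.TM

lemma hits_le_visits {p q n : ℕ} (hn : 1 ≤ n) {α β : ℝ} (h0 : 0 ≤ α) (h1 : β ≤ 1) (x : ℝ) :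
    (hits p q (n - 1) ((fun z : ℝ => (z : TT)) '' Set.Ioo α β) (x : TT)).ncard ≤
      visits p q n α β x := by
  classical
  unfold visits
  rw [← Set.ncard_coe_finset]
  refine Set.ncard_le_ncard ?_ (Finset.finite_toSet _)
  rintro ⟨i, j⟩ ⟨hi, hj, z, hz, hzu⟩
  simp only [Finset.coe_filter, Finset.mem_product, Finset.mem_range, Set.mem_ofPred_eq]
  change i ≤ n - 1 at hi
  change j ≤ n - 1 at hj
  refine ⟨⟨by omega, by omega⟩, ?_⟩
  have h3 : ((z : ℝ) : TT) = (((p : ℝ) ^ i * (q : ℝ) ^ j * x : ℝ) : TT) := by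
    rw [show ((z : ℝ) : TT) = _ from hzu, ← AddCircle.coe_nsmul, nsmul_eq_mul]
    push_cast
    rfl
  rw [← sub_eq_zero, ← AddCircle.coe_sub, AddCircle.coe_eq_zero_iff] at h3
  obtain ⟨m, hm⟩ := h3
  simp only [zsmul_eq_mul, mul_one] at hm
  have h4 : (p : ℝ) ^ i * (q : ℝ) ^ j * x = z + ((-m : ℤ) : ℝ) := by
    push_cast
    linarith
  have h5 : Int.fract ((p : ℝ) ^ i * (q : ℝ) ^ j * x) = z := by
    rw [h4, Int.fract_add_intCast, Int.fract_eq_self]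
    exact ⟨h0.trans hz.1.le, hz.2.trans_le h1⟩
  rw [h5]
  exact hz

/-- a real whose class has small norm is close to an integer -/
lemma near_int (y : ℝ) : ∃ z : ℤ, |y - z| = ‖((y : ℝ) : TT)‖ := by
  refine ⟨round y, ?_⟩
  rw [UnitAddCircle.norm_eq]

lemma abs_aeval_le (P : ℤ[X]) (m : ℕ) (hP : P.natDegree ≤ m) (H : ℝ) (hH : 0 ≤ H)
    (h : ∀ i, |(P.coeff i : ℝ)| ≤ H) (θ : ℝ) :
    |aeval θ P| ≤ (m + 1) * H * (max 1 |θ|) ^ m := by
  rw [aeval_eq_sum_range' (Nat.lt_succ_of_le hP)]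
  refine (Finset.abs_sum_le_sum_abs _ _).trans ?_
  have h1 : ∀ i ∈ Finset.range (m + 1), |P.coeff i • θ ^ i| ≤ H * (max 1 |θ|) ^ m := by
    intro i hi
    rw [Finset.mem_range] at hi
    rw [zsmul_eq_mul, abs_mul, abs_pow]
    have h2 : |θ| ^ i ≤ (max 1 |θ|) ^ m :=
      (pow_le_pow_left₀ (abs_nonneg _) (le_max_right _ _) i).trans
        (pow_le_pow_right₀ (le_max_left _ _) (by omega))
    exact mul_le_mul (h i) h2 (by positivity) hH
  calc ∑ i ∈ Finset.range (m + 1), |P.coeff i • θ ^ i|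
      ≤ ∑ i ∈ Finset.range (m + 1), H * (max 1 |θ|) ^ m := Finset.sum_le_sum h1
    _ = _ := by rw [Finset.sum_const, Finset.card_range, nsmul_eq_mul]; push_cast; ring

/-- **The arithmetic step.**  If two multiples of `(u t + P(θ)) / v` and `(u' t + P'(θ)) / v'` are
both very close to integers, then `u' P - u P'` is constant. -/
theorem step {θ : ℝ} (hθ : MeasT (θ : ℂ)) (m : ℕ) : ∃ κ₁ : ℝ, 0 ≤ κ₁ ∧ ∀ d d' : ℕ, 1 ≤ d → 1 ≤ d' →
    ∃ B : ℝ, 0 < B ∧ ∀ (N : ℕ) (E ε t : ℝ) (u v u' v' : ℤ) (P P' : ℤ[X]), 1 ≤ N → 1 ≤ E → 0 ≤ ε →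
      ε ≤ 1 → v ≠ 0 → v' ≠ 0 →
      |(u : ℝ)| ≤ E → |(v : ℝ)| ≤ E → |(u' : ℝ)| ≤ E → |(v' : ℝ)| ≤ E →
      P.natDegree ≤ m → P'.natDegree ≤ m → (∀ i, |(P.coeff i : ℝ)| ≤ E) →
      (∀ i, |(P'.coeff i : ℝ)| ≤ E) → (C u' * P - C u * P').natDegree ≠ 0 →
      ‖((((N * d : ℕ) : ℝ) * ((u * t + aeval θ P) / v) : ℝ) : TT)‖ ≤ ε →
      ‖((((N * d' : ℕ) : ℝ) * ((u' * t + aeval θ P') / v') : ℝ) : TT)‖ ≤ ε →
      1 ≤ B * (N * E ^ 2) ^ κ₁ * (E ^ 2 * ε) := by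
  obtain ⟨κ, c, hκ, hc, hM⟩ := hθ m
  refine ⟨κ, hκ, fun d d' hd hd' => ?_⟩
  have hdR : (1 : ℝ) ≤ d := by exact_mod_cast hd
  have hdR' : (1 : ℝ) ≤ d' := by exact_mod_cast hd'
  obtain ⟨μ, hμ⟩ : ∃ μ : ℝ, μ = (max 1 |θ|) ^ m := ⟨_, rfl⟩
  have hμ1 : 1 ≤ μ := by rw [hμ]; exact one_le_pow₀ (le_max_left _ _)
  obtain ⟨A, hA⟩ : ∃ A : ℝ, A = 2 * (d * d') + 2 * (d * d') * ((m + 1) * μ) + d + d' := ⟨_, rfl⟩
  have hA1 : 1 ≤ A := by
    have h1 : 0 ≤ 2 * ((d : ℝ) * d') * ((m + 1) * μ) := by positivity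
    have h2 : 0 ≤ 2 * ((d : ℝ) * d') := by positivity
    rw [hA]; linarith
  refine ⟨A ^ κ * (d + d') / c, by positivity, ?_⟩
  intro N E ε t u v u' v' P P' hN hE hε hε1 hv hv' hu hvE hu' hvE' hP hP' hPE hPE' hdeg h1 h2
  have hNR : (1 : ℝ) ≤ N := by exact_mod_cast hN
  have hE0 : 0 ≤ E := by linarith
  have hvR : (v : ℝ) ≠ 0 := by exact_mod_cast hv
  have hvR' : (v' : ℝ) ≠ 0 := by exact_mod_cast hv'
  obtain ⟨z, hz⟩ := near_int (((N * d : ℕ) : ℝ) * ((u * t + aeval θ P) / v))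
  obtain ⟨z', hz'⟩ := near_int (((N * d' : ℕ) : ℝ) * ((u' * t + aeval θ P') / v'))
  rw [← hz] at h1
  rw [← hz'] at h2
  obtain ⟨w, hw⟩ : ∃ w : ℤ, w = d' * u' * v * z - d * u * v' * z' := ⟨_, rfl⟩
  obtain ⟨G, hG⟩ : ∃ G : ℤ[X], G = C ((N * d * d' : ℕ) : ℤ) * (C u' * P - C u * P') - C w := ⟨_, rfl⟩
  have hNdd : ((N * d * d' : ℕ) : ℤ) ≠ 0 := by
    have : 0 < N * d * d' := by positivity
    exact_mod_cast this.ne'
  have hGdeg : G.natDegree ≠ 0 := by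
    rw [hG, natDegree_sub_C, natDegree_C_mul hNdd]
    exact hdeg
  have hG0 : G ≠ 0 := by
    rintro h
    rw [h, natDegree_zero] at hGdeg
    exact hGdeg rfl
  have hGm : G.natDegree ≤ m := by
    rw [hG, natDegree_sub_C, natDegree_C_mul hNdd]
    refine (natDegree_sub_le _ _).trans (max_le ?_ ?_)
    · exact (natDegree_C_mul_le _ _).trans hP
    · exact (natDegree_C_mul_le _ _).trans hP'
  have hCe : ∀ k : ℤ, aeval θ (C k : ℤ[X]) = (k : ℝ) := fun k => by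
    rw [aeval_C, algebraMap_int_eq, eq_intCast]
  have hval : aeval θ G = (d' * u' * v) * (((N * d : ℕ) : ℝ) * ((u * t + aeval θ P) / v) - z) -
      (d * u * v') * (((N * d' : ℕ) : ℝ) * ((u' * t + aeval θ P') / v') - z') := by
    rw [hG, hw]
    simp only [map_sub, map_mul, hCe]
    push_cast
    field_simp
    ring
  have hval2 : |aeval θ G| ≤ (d + d') * (E ^ 2 * ε) := by
    rw [hval]
    refine (abs_sub _ _).trans ?_
    rw [abs_mul, abs_mul, abs_mul, abs_mul, abs_mul, abs_mul, Nat.abs_cast, Nat.abs_cast]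
    have e1 : (d' : ℝ) * |(u' : ℝ)| * |(v : ℝ)| *
        |((N * d : ℕ) : ℝ) * ((u * t + aeval θ P) / v) - z| ≤ d' * E * E * ε := by
      gcongr
    have e2 : (d : ℝ) * |(u : ℝ)| * |(v' : ℝ)| *
        |((N * d' : ℕ) : ℝ) * ((u' * t + aeval θ P') / v') - z'| ≤ d * E * E * ε := by
      gcongr
    calc _ ≤ d' * E * E * ε + d * E * E * ε := add_le_add e1 e2
      _ = _ := by ring
  have hEE : E ≤ E ^ 2 := by nlinarith
  have hPθ : |aeval θ P| ≤ (m + 1) * E * μ := by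
    rw [hμ]; exact abs_aeval_le P m hP E hE0 hPE θ
  have hPθ' : |aeval θ P'| ≤ (m + 1) * E * μ := by
    rw [hμ]; exact abs_aeval_le P' m hP' E hE0 hPE' θ
  have hwabs : |(w : ℝ)| ≤ N * E ^ 2 * (2 * (d * d') * ((m + 1) * μ) + d + d') := by
    have e0 : (w : ℝ) = ((N * d * d' : ℕ) : ℝ) * (u' * aeval θ P - u * aeval θ P') - aeval θ G := by
      rw [hG]
      simp only [map_sub, map_mul, hCe]
      push_cast
      ring
    rw [e0]
    refine (abs_sub _ _).trans ?_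
    rw [abs_mul, Nat.abs_cast]
    have e1 : |(u' : ℝ) * aeval θ P - u * aeval θ P'| ≤ 2 * E * ((m + 1) * E * μ) := by
      refine (abs_sub _ _).trans ?_
      rw [abs_mul, abs_mul]
      have e2 : |(u' : ℝ)| * |aeval θ P| ≤ E * ((m + 1) * E * μ) := by gcongr
      have e3 : |(u : ℝ)| * |aeval θ P'| ≤ E * ((m + 1) * E * μ) := by gcongr
      linarith
    have e4 : (d + d' : ℝ) * (E ^ 2 * ε) ≤ N * ((d + d' : ℝ) * E ^ 2) := by
      have h5 : (d + d' : ℝ) * (E ^ 2 * ε) ≤ (d + d') * (E ^ 2 * 1) := by gcongr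
      have h6 : 0 ≤ (d + d' : ℝ) * E ^ 2 := by positivity
      nlinarith
    calc ((N * d * d' : ℕ) : ℝ) * |(u' : ℝ) * aeval θ P - u * aeval θ P'| + |aeval θ G|
        ≤ ((N * d * d' : ℕ) : ℝ) * (2 * E * ((m + 1) * E * μ)) + N * ((d + d' : ℝ) * E ^ 2) :=
          add_le_add (mul_le_mul_of_nonneg_left e1 (Nat.cast_nonneg _)) (hval2.trans e4)
      _ = _ := by push_cast; ring
  have hcoef : ∀ i, |(G.coeff i : ℝ)| ≤ N * E ^ 2 * A := by
    intro i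
    have e1 : |(((C ((N * d * d' : ℕ) : ℤ) * (C u' * P - C u * P')).coeff i : ℤ) : ℝ)| ≤
        N * E ^ 2 * (2 * (d * d')) := by
      rw [coeff_C_mul, coeff_sub, coeff_C_mul, coeff_C_mul]
      push_cast
      rw [abs_mul]
      have e2 : |(u' : ℝ) * (P.coeff i : ℝ) - u * (P'.coeff i : ℝ)| ≤ 2 * E ^ 2 := by
        refine (abs_sub _ _).trans ?_
        rw [abs_mul, abs_mul]
        have e3 : |(u' : ℝ)| * |(P.coeff i : ℝ)| ≤ E * E :=
          mul_le_mul hu' (hPE i) (abs_nonneg _) hE0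
        have e4 : |(u : ℝ)| * |(P'.coeff i : ℝ)| ≤ E * E :=
          mul_le_mul hu (hPE' i) (abs_nonneg _) hE0
        nlinarith
      have e5 : |(N : ℝ) * d * d'| = N * d * d' := abs_of_nonneg (by positivity)
      rw [e5]
      calc (N : ℝ) * d * d' * |(u' : ℝ) * (P.coeff i : ℝ) - u * (P'.coeff i : ℝ)|
          ≤ (N : ℝ) * d * d' * (2 * E ^ 2) := by gcongr
        _ = _ := by ring
    have e2 : |(((C w : ℤ[X]).coeff i : ℤ) : ℝ)| ≤ |(w : ℝ)| := by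
      rw [coeff_C]
      split_ifs
      · exact le_rfl
      · simp
    rw [hG, coeff_sub]
    push_cast
    refine (abs_sub _ _).trans ?_
    calc _ ≤ N * E ^ 2 * (2 * (d * d')) + N * E ^ 2 * (2 * (d * d') * ((m + 1) * μ) + d + d') :=
          add_le_add e1 (e2.trans hwabs)
      _ = _ := by rw [hA]; ring
  have hNE : 1 ≤ N * E ^ 2 := by nlinarith
  have hH1 : 1 ≤ N * E ^ 2 * A := by nlinarith
  have key := hM G hG0 hGm _ hH1 hcoef
  rw [← abs_aeval, Real.mul_rpow (by positivity) (by positivity)] at key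
  have key2 : c ≤ (N * E ^ 2) ^ κ * A ^ κ * ((d + d') * (E ^ 2 * ε)) :=
    key.trans (mul_le_mul_of_nonneg_left hval2 (by positivity))
  have e9 : A ^ κ * (d + d') / c * (N * E ^ 2) ^ κ * (E ^ 2 * ε) =
      ((N * E ^ 2) ^ κ * A ^ κ * ((d + d') * (E ^ 2 * ε))) / c := by ring
  rw [e9, le_div_iff₀ hc, one_mul]
  exact key2

/-- constants are absorbed in the exponent -/
lemma absorb {c a b : ℝ} (hc : 0 < c) (hab : a < b) :
    ∀ᶠ n : ℕ in atTop, (n : ℝ) ^ a ≤ c * (n : ℝ) ^ b := by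
  have hlim : Tendsto (fun n : ℕ => (n : ℝ) ^ (b - a)) atTop atTop :=
    (tendsto_rpow_atTop (by linarith)).comp tendsto_natCast_atTop_atTop
  filter_upwards [hlim.eventually_ge_atTop (1 / c), eventually_ge_atTop 1] with n hn hn1
  have hn0 : (0 : ℝ) < n := by exact_mod_cast hn1
  rw [Real.rpow_sub hn0, div_le_div_iff₀ hc (Real.rpow_pos_of_pos hn0 _)] at hn
  linarith

lemma absorb2 {c a b : ℝ} (hc : 0 < c) (hab : a < b) :
    ∀ᶠ n : ℕ in atTop, (n : ℝ) ^ a ≤ c * ((n - 1 : ℕ) : ℝ) ^ b := by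
  have hs0 : (0 : ℝ) < 2 ^ |b| := by positivity
  have hc' : 0 < c / 2 ^ |b| := by positivity
  filter_upwards [eventually_ge_atTop 2, absorb hc' hab] with M hM2 hab
  have hM2R : (2 : ℝ) ≤ M := by exact_mod_cast hM2
  have hcast : ((M - 1 : ℕ) : ℝ) = (M : ℝ) - 1 := by
    rw [Nat.cast_sub (by omega)]; simp
  have hle : (M : ℝ) ^ b / 2 ^ |b| ≤ ((M - 1 : ℕ) : ℝ) ^ b := by
    rw [hcast, div_le_iff₀ hs0]
    have hM1 : (0 : ℝ) < (M : ℝ) - 1 := by linarith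
    rcases le_total 0 b with h | h
    · rw [abs_of_nonneg h, ← Real.mul_rpow hM1.le (by norm_num)]
      exact Real.rpow_le_rpow (by linarith) (by linarith) h
    · have h1 : (M : ℝ) ^ b ≤ ((M : ℝ) - 1) ^ b :=
        Real.rpow_le_rpow_of_nonpos hM1 (by linarith) h
      have h2 : (1 : ℝ) ≤ 2 ^ |b| := Real.one_le_rpow (by norm_num) (abs_nonneg _)
      have h3 : 0 ≤ ((M : ℝ) - 1) ^ b := (Real.rpow_pos_of_pos hM1 _).le
      nlinarith
  refine hab.trans ?_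
  calc c / 2 ^ |b| * (M : ℝ) ^ b = c * ((M : ℝ) ^ b / 2 ^ |b|) := by ring
    _ ≤ c * ((M - 1 : ℕ) : ℝ) ^ b := mul_le_mul_of_nonneg_left hle hc.le

/-- **Joint visits.** -/
theorem joint {p q : ℕ} (hp : 2 ≤ p) (hq : 2 ≤ q)
    (hirr : Irrational (Real.log (p : ℝ) / Real.log (q : ℝ))) {s s' : ℝ} (hss : s' < s)
    (hs : Pool.Agent.H847R3.XpXq.Gr2 p q s) {θ : ℝ} (hθ : MeasT (θ : ℂ)) (m : ℕ) :
    ∃ κ : ℝ, 0 < κ ∧ ∀ α β α' β' : ℝ, 0 ≤ α → α < β → β ≤ 1 → 0 ≤ α' → α' < β' → β' ≤ 1 →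
      ∀ᶠ n : ℕ in atTop, ∀ (t : ℝ) (u v u' v' : ℤ) (P P' : ℤ[X]), v ≠ 0 → v' ≠ 0 →
        |(u : ℝ)| ≤ Real.exp (κ * n) → |(v : ℝ)| ≤ Real.exp (κ * n) →
        |(u' : ℝ)| ≤ Real.exp (κ * n) → |(v' : ℝ)| ≤ Real.exp (κ * n) →
        P.natDegree ≤ m → P'.natDegree ≤ m →
        (∀ i, |(P.coeff i : ℝ)| ≤ Real.exp (κ * n)) →
        (∀ i, |(P'.coeff i : ℝ)| ≤ Real.exp (κ * n)) →
        (C u' * P - C u * P').natDegree ≠ 0 →
        (n : ℝ) ^ s' ≤ visits p q n α β ((u * t + aeval θ P) / v) ∨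
        (n : ℝ) ^ s' ≤ visits p q n α' β' ((u' * t + aeval θ P') / v') := by
  have hlq : 0 < Real.log q := Real.log_pos (by exact_mod_cast (by omega : 1 < q))
  have hlp : 0 < Real.log p := Real.log_pos (by exact_mod_cast (by omega : 1 < p))
  have hp0 : (0 : ℝ) < p := by exact_mod_cast (by omega : 0 < p)
  have hq0 : (0 : ℝ) < q := by exact_mod_cast (by omega : 0 < q)
  obtain ⟨a, ha, hcore⟩ := core_unif hp hq hirr hs
  obtain ⟨κ₁, hκ₁, hstep⟩ := step hθ m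
  obtain ⟨K, hK, hU⟩ := hcore (2 * a * κ₁ + 2) (by positivity)
  refine ⟨1 / (4 * K * (κ₁ + 1)), by positivity, ?_⟩
  obtain ⟨κ, hκ⟩ : ∃ κ : ℝ, κ = 1 / (4 * K * (κ₁ + 1)) := ⟨_, rfl⟩
  rw [← hκ]
  have hκ0 : 0 < κ := by rw [hκ]; positivity
  have hopen : ∀ V : Set ℝ, IsOpen V → IsOpen ((fun z : ℝ => (z : TT)) '' V) := fun V hV =>
    (QuotientAddGroup.isOpenMap_coe : IsOpenMap (fun z : ℝ => (z : TT))) V hV
  intro α β α' β' hα hαβ hβ hα' hαβ' hβ'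
  obtain ⟨d, hd, c, hc, n0, hn0⟩ := hU _ (hopen _ (isOpen_Ioo (a := α) (b := β)))
    ((Set.nonempty_Ioo.2 hαβ).image _)
  obtain ⟨d', hd', c', hc', n0', hn0'⟩ := hU _ (hopen _ (isOpen_Ioo (a := α') (b := β')))
    ((Set.nonempty_Ioo.2 hαβ').image _)
  obtain ⟨B, hB, hst⟩ := hstep d d' hd hd'
  have hlim : Tendsto (fun n : ℕ => ((n - 1 : ℕ) : ℝ) / K) atTop atTop :=
    (tendsto_natCast_atTop_atTop.comp (tendsto_sub_atTop_nat 1)).atTop_div_const hK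
  have hlim2 : Tendsto (fun n : ℕ => B * (p : ℝ) ^ κ₁ * Real.exp (-(((n - 1 : ℕ) : ℝ) / K)))
      atTop (𝓝 (B * (p : ℝ) ^ κ₁ * 0)) :=
    (Real.tendsto_exp_neg_atTop_nhds_zero.comp hlim).const_mul _
  rw [mul_zero] at hlim2
  filter_upwards [eventually_ge_atTop (n0 + n0' + 2), absorb2 hc hss, absorb2 hc' hss,
    hlim2.eventually_lt_const one_pos] with n hn hab hab' hlt
  intro t u v u' v' P P' hv hv' hu hvE hu' hvE' hP hP' hPE hPE' hdeg
  by_contra hcon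
  push Not at hcon
  obtain ⟨hc1, hc2⟩ := hcon
  obtain ⟨T, hT⟩ : ∃ T : ℝ, T = ((n - 1 : ℕ) : ℝ) / K := ⟨_, rfl⟩
  have hT0 : 0 ≤ T := by rw [hT]; positivity
  have h1 : ¬ Real.exp (-((2 * a * κ₁ + 2) * (((n - 1 : ℕ) : ℝ) / K))) ≤
      ‖cen p q d a (((n - 1 : ℕ) : ℝ) / K) • (((u * t + aeval θ P) / v : ℝ) : TT)‖ := by
    intro h
    have h2 := hn0 (n - 1) (by omega) _ h
    have h3 : ((hits p q (n - 1) ((fun z : ℝ => (z : TT)) '' Set.Ioo α β)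
      (((u * t + aeval θ P) / v : ℝ) : TT)).ncard : ℝ) ≤ _ :=
      Nat.cast_le.2 (hits_le_visits (p := p) (q := q) (n := n) (by omega) hα hβ
        ((u * t + aeval θ P) / v))
    linarith
  have h1' : ¬ Real.exp (-((2 * a * κ₁ + 2) * (((n - 1 : ℕ) : ℝ) / K))) ≤
      ‖cen p q d' a (((n - 1 : ℕ) : ℝ) / K) • (((u' * t + aeval θ P') / v' : ℝ) : TT)‖ := by
    intro h
    have h2 := hn0' (n - 1) (by omega) _ h
    have h3 : ((hits p q (n - 1) ((fun z : ℝ => (z : TT)) '' Set.Ioo α' β')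
      (((u' * t + aeval θ P') / v' : ℝ) : TT)).ncard : ℝ) ≤ _ :=
      Nat.cast_le.2 (hits_le_visits (p := p) (q := q) (n := n) (by omega) hα' hβ'
        ((u' * t + aeval θ P') / v'))
    linarith
  rw [← hT] at h1 h1' hlt
  push Not at h1 h1'
  obtain ⟨N, hN⟩ : ∃ N : ℕ, N = p ^ (⌊a * T / Real.log p⌋₊ + 1) * q ^ ⌊a * T / Real.log q⌋₊ :=
    ⟨_, rfl⟩
  have hN1 : 1 ≤ N := by
    rw [hN]
    exact Nat.one_le_iff_ne_zero.2 (by positivity)
  have hcen : ∀ (k : ℕ) (x : ℝ), cen p q k a T • (x : TT) = ((((N * k : ℕ) : ℝ) * x : ℝ) : TT) := by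
    intro k x
    rw [← AddCircle.coe_nsmul, nsmul_eq_mul, hN]
    rfl
  rw [hcen] at h1 h1'
  obtain ⟨E, hE⟩ : ∃ E : ℝ, E = Real.exp (κ * n) := ⟨_, rfl⟩
  rw [← hE] at hu hvE hu' hvE' hPE hPE'
  have hE1 : 1 ≤ E := by rw [hE]; exact Real.one_le_exp (by positivity)
  have key := hst N E (Real.exp (-((2 * a * κ₁ + 2) * T))) t u v u' v' P P' hN1 hE1
    (Real.exp_pos _).le (Real.exp_le_one_iff.2 (by
      have : 0 ≤ (2 * a * κ₁ + 2) * T := by positivity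
      linarith)) hv hv' hu hvE hu' hvE' hP hP' hPE hPE' hdeg h1.le h1'.le
  -- sizes
  have hNle : (N : ℝ) ≤ p * Real.exp (2 * a * T) := by
    rw [hN]
    push_cast
    have e1 : (p : ℝ) ^ ⌊a * T / Real.log p⌋₊ ≤ Real.exp (a * T) := by
      rw [← Real.rpow_natCast, Real.rpow_def_of_pos hp0]
      apply Real.exp_le_exp.2
      have h3 : (⌊a * T / Real.log p⌋₊ : ℝ) ≤ a * T / Real.log p := Nat.floor_le (by positivity)
      calc Real.log p * (⌊a * T / Real.log p⌋₊ : ℝ) ≤ Real.log p * (a * T / Real.log p) :=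
            mul_le_mul_of_nonneg_left h3 hlp.le
        _ = a * T := by field_simp
    have e2 : (q : ℝ) ^ ⌊a * T / Real.log q⌋₊ ≤ Real.exp (a * T) := by
      rw [← Real.rpow_natCast, Real.rpow_def_of_pos hq0]
      apply Real.exp_le_exp.2
      have h3 : (⌊a * T / Real.log q⌋₊ : ℝ) ≤ a * T / Real.log q := Nat.floor_le (by positivity)
      calc Real.log q * (⌊a * T / Real.log q⌋₊ : ℝ) ≤ Real.log q * (a * T / Real.log q) :=
            mul_le_mul_of_nonneg_left h3 hlq.le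
        _ = a * T := by field_simp
    calc (p : ℝ) ^ (⌊a * T / Real.log p⌋₊ + 1) * (q : ℝ) ^ ⌊a * T / Real.log q⌋₊
        = p * ((p : ℝ) ^ ⌊a * T / Real.log p⌋₊ * (q : ℝ) ^ ⌊a * T / Real.log q⌋₊) := by
          rw [pow_succ]; ring
      _ ≤ p * (Real.exp (a * T) * Real.exp (a * T)) := by gcongr
      _ = p * Real.exp (2 * a * T) := by rw [← Real.exp_add]; ring_nf
  have hnT : (n : ℝ) ≤ 2 * (K * T) := by
    have e1 : K * T = ((n - 1 : ℕ) : ℝ) := by rw [hT]; field_simp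
    rw [e1, Nat.cast_sub (by omega)]
    have : (2 : ℝ) ≤ n := by exact_mod_cast (by omega : 2 ≤ n)
    push_cast
    linarith
  have hE2 : E ^ 2 ≤ Real.exp (T / (κ₁ + 1)) := by
    rw [hE, ← Real.exp_nat_mul]
    apply Real.exp_le_exp.2
    push_cast
    calc 2 * (κ * n) ≤ 2 * (κ * (2 * (K * T))) := by gcongr
      _ = T / (κ₁ + 1) := by rw [hκ]; field_simp; ring
  have hfin : B * (N * E ^ 2) ^ κ₁ * (E ^ 2 * Real.exp (-((2 * a * κ₁ + 2) * T))) ≤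
      B * (p : ℝ) ^ κ₁ * Real.exp (-T) := by
    have e1 : (N * E ^ 2 : ℝ) ≤ p * Real.exp (2 * a * T + T / (κ₁ + 1)) := by
      rw [Real.exp_add, ← mul_assoc]
      gcongr
    calc B * (N * E ^ 2) ^ κ₁ * (E ^ 2 * Real.exp (-((2 * a * κ₁ + 2) * T)))
        ≤ B * (p * Real.exp (2 * a * T + T / (κ₁ + 1))) ^ κ₁ *
          (Real.exp (T / (κ₁ + 1)) * Real.exp (-((2 * a * κ₁ + 2) * T))) := by gcongr
      _ = B * (p : ℝ) ^ κ₁ * Real.exp (-T) := by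
        rw [Real.mul_rpow hp0.le (Real.exp_pos _).le, ← Real.exp_mul]
        have e2 : Real.exp (-T) = Real.exp ((2 * a * T + T / (κ₁ + 1)) * κ₁) *
            (Real.exp (T / (κ₁ + 1)) * Real.exp (-((2 * a * κ₁ + 2) * T))) := by
          rw [← Real.exp_add, ← Real.exp_add]
          congr 1
          field_simp
          ring
        rw [e2]
        ring
  linarith

end Pool.Agent.Z3h92
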