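import Mathlib
import Pool.Agent.Z3h92.Joint

/-!
Two rational combinations `(u t + P(θ)) / v` and `(u' t + P'(θ)) / v'` do not both have small
multiples very close to integers.
-/

set_option autoImplicit false

open Polynomial

namespace Pool.Agent.Z3h92

open Pool.Agent.TH456.TM

theorem step2 {θ : ℝ} (hθ : MeasT (θ : ℂ)) (m : ℕ) : ∃ κ₁ : ℝ, 0 ≤ κ₁ ∧ ∃ B : ℝ, 0 < B ∧
    ∀ (D D' : ℕ) (E ε t : ℝ) (u v u' v' z z' : ℤ) (P P' : ℤ[X]), 1 ≤ D → 1 ≤ D' → 1 ≤ E → 0 ≤ ε →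
      ε ≤ 1 → v ≠ 0 → v' ≠ 0 →
      |(u : ℝ)| ≤ E → |(v : ℝ)| ≤ E → |(u' : ℝ)| ≤ E → |(v' : ℝ)| ≤ E →
      P.natDegree ≤ m → P'.natDegree ≤ m → (∀ i, |(P.coeff i : ℝ)| ≤ E) →
      (∀ i, |(P'.coeff i : ℝ)| ≤ E) → (C u' * P - C u * P').natDegree ≠ 0 →
      |D * ((u * t + aeval θ P) / v) - z| ≤ ε →
      |D' * ((u' * t + aeval θ P') / v') - z'| ≤ ε →
      1 ≤ B * (D * D' * E ^ 2) ^ κ₁ * ((D + D') * E ^ 2 * ε) := by
  obtain ⟨κ, c, hκ, hc, hM⟩ := hθ m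
  obtain ⟨μ, hμ⟩ : ∃ μ : ℝ, μ = (max 1 |θ|) ^ m := ⟨_, rfl⟩
  have hμ1 : 1 ≤ μ := by rw [hμ]; exact one_le_pow₀ (le_max_left _ _)
  obtain ⟨A, hA⟩ : ∃ A : ℝ, A = 4 + 2 * ((m + 1) * μ) := ⟨_, rfl⟩
  have hA1 : 1 ≤ A := by
    have h1 : 0 ≤ 2 * (((m : ℝ) + 1) * μ) := by positivity
    rw [hA]; linarith
  refine ⟨κ, hκ, A ^ κ / c, by positivity, ?_⟩
  intro D D' E ε t u v u' v' z z' P P' hD hD' hE hε hε1 hv hv' hu hvE hu' hvE' hP hP' hPE hPE' hdeg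
    h1 h2
  have hDR : (1 : ℝ) ≤ D := by exact_mod_cast hD
  have hDR' : (1 : ℝ) ≤ D' := by exact_mod_cast hD'
  have hE0 : 0 ≤ E := by linarith
  have hvR : (v : ℝ) ≠ 0 := by exact_mod_cast hv
  have hvR' : (v' : ℝ) ≠ 0 := by exact_mod_cast hv'
  obtain ⟨w, hw⟩ : ∃ w : ℤ, w = D' * u' * v * z - D * u * v' * z' := ⟨_, rfl⟩
  obtain ⟨G, hG⟩ : ∃ G : ℤ[X], G = C ((D * D' : ℕ) : ℤ) * (C u' * P - C u * P') - C w := ⟨_, rfl⟩
  have hNdd : ((D * D' : ℕ) : ℤ) ≠ 0 := by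
    have : 0 < D * D' := by positivity
    exact_mod_cast this.ne'
  have hGdeg : G.natDegree ≠ 0 := by
    rw [hG, natDegree_sub_C, natDegree_C_mul hNdd]
    exact hdeg
  have hG0 : G ≠ 0 := by
    rintro h
    rw [h, natDegree_zero] at hGdeg
    exact hGdeg rfl
  have hGm : G.natDegree ≤ m := by
    rw [hG, natDegree_sub_C, natDegree_C_mul hNdd]
    refine (natDegree_sub_le _ _).trans (max_le ?_ ?_)
    · exact (natDegree_C_mul_le _ _).trans hP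
    · exact (natDegree_C_mul_le _ _).trans hP'
  have hCe : ∀ k : ℤ, aeval θ (C k : ℤ[X]) = (k : ℝ) := fun k => by
    rw [aeval_C, algebraMap_int_eq, eq_intCast]
  have hval : aeval θ G = (D' * u' * v) * (D * ((u * t + aeval θ P) / v) - z) -
      (D * u * v') * (D' * ((u' * t + aeval θ P') / v') - z') := by
    rw [hG, hw]
    simp only [map_sub, map_mul, hCe]
    push_cast
    field_simp
    ring
  have hval2 : |aeval θ G| ≤ (D + D') * E ^ 2 * ε := by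
    rw [hval]
    refine (abs_sub _ _).trans ?_
    rw [abs_mul, abs_mul, abs_mul, abs_mul, abs_mul, abs_mul, Nat.abs_cast, Nat.abs_cast]
    have e1 : (D' : ℝ) * |(u' : ℝ)| * |(v : ℝ)| *
        |D * ((u * t + aeval θ P) / v) - z| ≤ D' * E * E * ε := by
      gcongr
    have e2 : (D : ℝ) * |(u : ℝ)| * |(v' : ℝ)| *
        |D' * ((u' * t + aeval θ P') / v') - z'| ≤ D * E * E * ε := by
      gcongr
    calc _ ≤ D' * E * E * ε + D * E * E * ε := add_le_add e1 e2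
      _ = _ := by ring
  have hPθ : |aeval θ P| ≤ (m + 1) * E * μ := by
    rw [hμ]; exact abs_aeval_le P m hP E hE0 hPE θ
  have hPθ' : |aeval θ P'| ≤ (m + 1) * E * μ := by
    rw [hμ]; exact abs_aeval_le P' m hP' E hE0 hPE' θ
  have hDD : (D + D' : ℝ) ≤ 2 * (D * D') := by nlinarith
  have hwabs : |(w : ℝ)| ≤ D * D' * E ^ 2 * (2 * ((m + 1) * μ) + 2) := by
    have e0 : (w : ℝ) = ((D * D' : ℕ) : ℝ) * (u' * aeval θ P - u * aeval θ P') - aeval θ G := by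
      rw [hG]
      simp only [map_sub, map_mul, hCe]
      push_cast
      ring
    rw [e0]
    refine (abs_sub _ _).trans ?_
    rw [abs_mul, Nat.abs_cast]
    have e1 : |(u' : ℝ) * aeval θ P - u * aeval θ P'| ≤ 2 * E * ((m + 1) * E * μ) := by
      refine (abs_sub _ _).trans ?_
      rw [abs_mul, abs_mul]
      have e2 : |(u' : ℝ)| * |aeval θ P| ≤ E * ((m + 1) * E * μ) := by gcongr
      have e3 : |(u : ℝ)| * |aeval θ P'| ≤ E * ((m + 1) * E * μ) := by gcongr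
      linarith
    have e4 : (D + D' : ℝ) * E ^ 2 * ε ≤ 2 * (D * D') * E ^ 2 := by
      calc (D + D' : ℝ) * E ^ 2 * ε ≤ (2 * (D * D')) * E ^ 2 * 1 := by gcongr
        _ = _ := by ring
    calc ((D * D' : ℕ) : ℝ) * |(u' : ℝ) * aeval θ P - u * aeval θ P'| + |aeval θ G|
        ≤ ((D * D' : ℕ) : ℝ) * (2 * E * ((m + 1) * E * μ)) + 2 * (D * D') * E ^ 2 :=
          add_le_add (mul_le_mul_of_nonneg_left e1 (Nat.cast_nonneg _)) (hval2.trans e4)
      _ = _ := by push_cast; ring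
  have hcoef : ∀ i, |(G.coeff i : ℝ)| ≤ D * D' * E ^ 2 * A := by
    intro i
    have e1 : |(((C ((D * D' : ℕ) : ℤ) * (C u' * P - C u * P')).coeff i : ℤ) : ℝ)| ≤
        D * D' * E ^ 2 * 2 := by
      rw [coeff_C_mul, coeff_sub, coeff_C_mul, coeff_C_mul]
      push_cast
      rw [abs_mul]
      have e2 : |(u' : ℝ) * (P.coeff i : ℝ) - u * (P'.coeff i : ℝ)| ≤ 2 * E ^ 2 := by
        refine (abs_sub _ _).trans ?_
        rw [abs_mul, abs_mul]
        have e3 : |(u' : ℝ)| * |(P.coeff i : ℝ)| ≤ E * E :=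
          mul_le_mul hu' (hPE i) (abs_nonneg _) hE0
        have e4 : |(u : ℝ)| * |(P'.coeff i : ℝ)| ≤ E * E :=
          mul_le_mul hu (hPE' i) (abs_nonneg _) hE0
        nlinarith
      have e5 : |(D : ℝ) * D'| = D * D' := abs_of_nonneg (by positivity)
      rw [e5]
      calc (D : ℝ) * D' * |(u' : ℝ) * (P.coeff i : ℝ) - u * (P'.coeff i : ℝ)|
          ≤ (D : ℝ) * D' * (2 * E ^ 2) := by gcongr
        _ = _ := by ring
    have e2 : |(((C w : ℤ[X]).coeff i : ℤ) : ℝ)| ≤ |(w : ℝ)| := by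
      rw [coeff_C]
      split_ifs
      · exact le_rfl
      · simp
    rw [hG, coeff_sub]
    push_cast
    refine (abs_sub _ _).trans ?_
    calc _ ≤ D * D' * E ^ 2 * 2 + D * D' * E ^ 2 * (2 * ((m + 1) * μ) + 2) :=
          add_le_add e1 (e2.trans hwabs)
      _ = _ := by rw [hA]; ring
  have hNE : 1 ≤ D * D' * E ^ 2 := by
    have h3 : (1 : ℝ) ≤ D * D' := by nlinarith
    have h4 : 1 ≤ E ^ 2 := by nlinarith
    nlinarith
  have hH1 : 1 ≤ D * D' * E ^ 2 * A := by nlinarith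
  have key := hM G hG0 hGm _ hH1 hcoef
  rw [← abs_aeval, Real.mul_rpow (by positivity) (by positivity)] at key
  have key2 : c ≤ (D * D' * E ^ 2) ^ κ * A ^ κ * ((D + D') * E ^ 2 * ε) :=
    key.trans (mul_le_mul_of_nonneg_left hval2 (by positivity))
  have e9 : A ^ κ / c * (D * D' * E ^ 2) ^ κ * ((D + D') * E ^ 2 * ε) =
      ((D * D' * E ^ 2) ^ κ * A ^ κ * ((D + D') * E ^ 2 * ε)) / c := by ring
  rw [e9, le_div_iff₀ hc, one_mul]
  exact key2

end Pool.Agent.Z3h92
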