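import Mathlib
import Pool.Agent.Z3h92.Step2
import Pool.Agent.Z3h92.Equi

/-!
At every scale all the rational combinations `(u t + P(θ)) / v` except those of one class satisfy
the Diophantine condition.
-/

set_option autoImplicit false

open Polynomial Filter Topology

namespace Pool.Agent.Z3h92

open Pool.Agent.TH456.TM

theorem dio_or {θ : ℝ} (hθ : MeasT (θ : ℂ)) (m : ℕ) : ∃ η : ℝ, 0 < η ∧ η ≤ 1 / 2 ∧ ∃ N₀ : ℕ,
    ∀ N : ℕ, N₀ ≤ N → ∀ (t : ℝ) (u v u' v' : ℤ) (P P' : ℤ[X]), v ≠ 0 → v' ≠ 0 →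
      |(u : ℝ)| ≤ (N : ℝ) ^ η → |(v : ℝ)| ≤ (N : ℝ) ^ η →
      |(u' : ℝ)| ≤ (N : ℝ) ^ η → |(v' : ℝ)| ≤ (N : ℝ) ^ η →
      P.natDegree ≤ m → P'.natDegree ≤ m →
      (∀ i, |(P.coeff i : ℝ)| ≤ (N : ℝ) ^ η) → (∀ i, |(P'.coeff i : ℝ)| ≤ (N : ℝ) ^ η) →
      (C u' * P - C u * P').natDegree ≠ 0 →
      Dio η N ((u * t + aeval θ P) / v) ∨ Dio η N ((u' * t + aeval θ P') / v') := by
  obtain ⟨κ, hκ, B, hB, hst⟩ := step2 hθ m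
  obtain ⟨η, hη⟩ : ∃ η : ℝ, η = 1 / (8 * (κ + 1)) := ⟨_, rfl⟩
  have hη0 : 0 < η := by rw [hη]; positivity
  have hη1 : η ≤ 1 / 8 := by
    rw [hη]
    apply one_div_le_one_div_of_le (by norm_num)
    linarith
  have hlim : Tendsto (fun N : ℕ => 2 * B * (N : ℝ) ^ (-(1 / 2 : ℝ))) atTop (𝓝 (2 * B * 0)) :=
    ((tendsto_rpow_neg_atTop (by norm_num)).comp tendsto_natCast_atTop_atTop).const_mul _
  rw [mul_zero] at hlim
  obtain ⟨N₁, hN₁⟩ := eventually_atTop.1 (hlim.eventually_lt_const one_pos)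
  refine ⟨η, hη0, by linarith, N₁ + 1, ?_⟩
  intro N hN t u v u' v' P P' hv hv' hu hvE hu' hvE' hP hP' hPE hPE' hdeg
  by_contra hcon
  rw [not_or] at hcon
  obtain ⟨h1, h2⟩ := hcon
  unfold Dio at h1 h2
  push Not at h1 h2
  obtain ⟨D, hD1, hD2, z, hz⟩ := h1
  obtain ⟨D', hD1', hD2', z', hz'⟩ := h2
  have hN1 : (1 : ℝ) ≤ N := by exact_mod_cast (by omega : 1 ≤ N)
  have hN0 : (0 : ℝ) < N := by linarith
  have hE1 : 1 ≤ (N : ℝ) ^ η := Real.one_le_rpow hN1 hη0.le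
  have key := hst D D' ((N : ℝ) ^ η) ((N : ℝ) ^ (η - 1)) t u v u' v' z z' P P' hD1 hD1' hE1
    (by positivity) (Real.rpow_le_one_of_one_le_of_nonpos hN1 (by linarith)) hv hv' hu hvE hu' hvE'
    hP hP' hPE hPE' hdeg hz hz'
  have h3 : (D * D' * ((N : ℝ) ^ η) ^ 2) ≤ (N : ℝ) ^ (4 * η) := by
    calc (D * D' * ((N : ℝ) ^ η) ^ 2) ≤ (N : ℝ) ^ η * (N : ℝ) ^ η * ((N : ℝ) ^ η) ^ 2 := by gcongr
      _ = ((N : ℝ) ^ η) ^ 4 := by ring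
      _ = (N : ℝ) ^ (4 * η) := by
        rw [← Real.rpow_natCast, ← Real.rpow_mul hN0.le]
        congr 1
        push_cast; ring
  have h4 : ((D + D') * ((N : ℝ) ^ η) ^ 2 * (N : ℝ) ^ (η - 1)) ≤ 2 * (N : ℝ) ^ (4 * η - 1) := by
    calc ((D + D') * ((N : ℝ) ^ η) ^ 2 * (N : ℝ) ^ (η - 1))
        ≤ (((N : ℝ) ^ η + (N : ℝ) ^ η) * ((N : ℝ) ^ η) ^ 2 * (N : ℝ) ^ (η - 1)) := by gcongr
      _ = 2 * (((N : ℝ) ^ η) ^ 3 * (N : ℝ) ^ (η - 1)) := by ring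
      _ = 2 * (N : ℝ) ^ (4 * η - 1) := by
        rw [← Real.rpow_natCast, ← Real.rpow_mul hN0.le, ← Real.rpow_add hN0]
        congr 2
        push_cast; ring
  have h5 : B * (D * D' * ((N : ℝ) ^ η) ^ 2) ^ κ *
      ((D + D') * ((N : ℝ) ^ η) ^ 2 * (N : ℝ) ^ (η - 1)) ≤ 2 * B * (N : ℝ) ^ (-(1 / 2 : ℝ)) := by
    calc B * (D * D' * ((N : ℝ) ^ η) ^ 2) ^ κ *
        ((D + D') * ((N : ℝ) ^ η) ^ 2 * (N : ℝ) ^ (η - 1))
        ≤ B * ((N : ℝ) ^ (4 * η)) ^ κ * (2 * (N : ℝ) ^ (4 * η - 1)) := by gcongr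
      _ = 2 * B * (N : ℝ) ^ (4 * η * κ + (4 * η - 1)) := by
        rw [← Real.rpow_mul hN0.le, Real.rpow_add hN0]
        ring
      _ = 2 * B * (N : ℝ) ^ (-(1 / 2 : ℝ)) := by
        congr 2
        rw [hη]
        field_simp
        ring
  have h6 := hN₁ N (by omega)
  linarith

end Pool.Agent.Z3h92
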