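import Pool.Agent.TH647.NR.Rank

/-!
# The exponent for linear relations between the powers of `e` and arbitrary numbers is sharp
-/

set_option autoImplicit false

namespace Pool.Agent.Z3h92.Rel

open Finset

/-- pigeonhole principle for a linear form with nonnegative coefficients -/
theorem pigeon (m : ℕ) (θ : Fin (m + 1) → ℝ) (hθ : ∀ i, 0 ≤ θ i) (hS : 0 < ∑ i, θ i) (B : ℕ)
    (hB : 2 ≤ B) :
    ∃ a : Fin (m + 1) → ℤ, a ≠ 0 ∧ (∀ i, (a i).natAbs < B) ∧
      |∑ i, (a i : ℝ) * θ i| ≤ 2 * (∑ i, θ i) / (B : ℝ) ^ m := by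
  classical
  obtain ⟨S, hSE⟩ : ∃ S : ℝ, S = ∑ i, θ i := ⟨_, rfl⟩
  rw [← hSE] at hS ⊢
  obtain ⟨M, hM⟩ : ∃ M : ℕ, M = B ^ (m + 1) - 1 := ⟨_, rfl⟩
  have hBm : 2 ≤ B ^ (m + 1) := by
    calc 2 ≤ B := hB
      _ = B ^ 1 := (pow_one _).symm
      _ ≤ B ^ (m + 1) := Nat.pow_le_pow_right (by omega) (by omega)
  have hM1 : 1 ≤ M := by omega
  have hBR : (2 : ℝ) ≤ B := by exact_mod_cast hB
  have hMR : (1 : ℝ) ≤ M := by exact_mod_cast hM1
  obtain ⟨l, hl⟩ : ∃ l : ℝ, l = B * S / M := ⟨_, rfl⟩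
  have hl0 : 0 < l := by rw [hl]; positivity
  let f : (Fin (m + 1) → Fin B) → ℝ := fun x => ∑ i, (((x i : ℕ) : ℝ)) * θ i
  have hf0 : ∀ x, 0 ≤ f x := fun x => Finset.sum_nonneg fun i _ => mul_nonneg (by positivity) (hθ i)
  have hf1 : ∀ x, f x < B * S := by
    intro x
    have h1 : f x ≤ ∑ i, ((B : ℝ) - 1) * θ i := by
      refine Finset.sum_le_sum fun i _ => mul_le_mul_of_nonneg_right ?_ (hθ i)
      have h2 : ((x i : ℕ) : ℝ) + 1 ≤ B := by exact_mod_cast (x i).2
      linarith
    rw [← Finset.mul_sum, ← hSE] at h1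
    nlinarith
  have hlt : ∀ x, ⌊f x / l⌋₊ < M := by
    intro x
    rw [Nat.floor_lt (div_nonneg (hf0 x) hl0.le), div_lt_iff₀ hl0, hl]
    have h1 : (M : ℝ) * (B * S / M) = B * S := by
      field_simp
    rw [h1]
    exact hf1 x
  obtain ⟨x, y, hxy, hg⟩ := Fintype.exists_ne_map_eq_of_card_lt
    (f := fun x : Fin (m + 1) → Fin B => (⟨⌊f x / l⌋₊, hlt x⟩ : Fin M)) (by
      rw [Fintype.card_fin, Fintype.card_fun, Fintype.card_fin, Fintype.card_fin]
      omega)
  have hg' : ⌊f x / l⌋₊ = ⌊f y / l⌋₊ := congrArg Fin.val hg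
  have hd : |f x - f y| ≤ l := by
    have h1 := Nat.floor_le (div_nonneg (hf0 x) hl0.le)
    have h2 := Nat.lt_floor_add_one (f x / l)
    have h3 := Nat.floor_le (div_nonneg (hf0 y) hl0.le)
    have h4 := Nat.lt_floor_add_one (f y / l)
    rw [hg'] at h1 h2
    rw [le_div_iff₀ hl0] at h1 h3
    rw [div_lt_iff₀ hl0] at h2 h4
    rw [abs_le]
    constructor <;> nlinarith
  refine ⟨fun i => ((x i : ℕ) : ℤ) - ((y i : ℕ) : ℤ), ?_, fun i => ?_, ?_⟩
  · intro h0
    apply hxy
    funext i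
    have := congrFun h0 i
    simp only [Pi.zero_apply] at this
    apply Fin.ext
    omega
  · have h1 := (x i).2
    have h2 := (y i).2
    show (((x i : ℕ) : ℤ) - ((y i : ℕ) : ℤ)).natAbs < B
    omega
  · have h1 : ∑ i, ((((x i : ℕ) : ℤ) - ((y i : ℕ) : ℤ) : ℤ) : ℝ) * θ i = f x - f y := by
      show _ = ∑ i, (((x i : ℕ) : ℝ)) * θ i - ∑ i, (((y i : ℕ) : ℝ)) * θ i
      rw [← Finset.sum_sub_distrib]
      refine Finset.sum_congr rfl fun i _ => ?_
      push_cast
      ring
    rw [h1]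
    refine hd.trans ?_
    rw [hl, div_le_div_iff₀ (by positivity) (by positivity)]
    have h2 : (M : ℝ) = (B : ℝ) ^ (m + 1) - 1 := by
      rw [hM, Nat.cast_sub (by omega)]
      push_cast
      ring
    have h3 : (2 : ℝ) ≤ (B : ℝ) ^ (m + 1) := by exact_mod_cast hBm
    rw [h2]
    have h4 : (B : ℝ) * (B : ℝ) ^ m = (B : ℝ) ^ (m + 1) := by rw [pow_succ]; ring
    calc (B : ℝ) * S * (B : ℝ) ^ m = S * (B : ℝ) ^ (m + 1) := by rw [← h4]; ring
      _ ≤ S * (2 * ((B : ℝ) ^ (m + 1) - 1)) := by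
          refine mul_le_mul_of_nonneg_left ?_ hS.le
          linarith
      _ = _ := by ring

/-- digits -/
theorem digits_sum (b : ℕ) (r n : ℕ) : ∑ k ∈ range r, (n / b ^ k % b) * b ^ k = n % b ^ r := by
  induction r with
  | zero => simp [Nat.mod_one]
  | succ r ih =>
    rw [Finset.sum_range_succ, ih, pow_succ, Nat.mod_mul]
    ring

/-- The exponent `(r + 1) (m + 1) - 1` is best possible. -/
theorem sharp (m r : ℕ) : ∃ C : ℝ, 0 < C ∧ ∀ N : ℕ, 2 ≤ N → ∃ t : Fin r → ℝ, (∀ j, |t j| ≤ C) ∧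
    ∃ v : Fin (r + 1) → (Fin (m + 1) → ℤ) × (Fin r → ℤ), LinearIndependent ℤ v ∧
      (∀ k, ‖v k‖ ≤ (N : ℝ)) ∧ ∀ k,
        |∑ i, ((v k).1 i : ℝ) * Real.exp 1 ^ (i : ℕ) + ∑ j, ((v k).2 j : ℝ) * t j| ≤
          C / (N : ℝ) ^ ((r + 1) * m + r) := by
  classical
  obtain ⟨S, hSE⟩ : ∃ S : ℝ, S = ∑ i : Fin (m + 1), Real.exp 1 ^ (i : ℕ) := ⟨_, rfl⟩
  have hpos : ∀ i : Fin (m + 1), 0 < Real.exp 1 ^ (i : ℕ) := fun i => by positivity
  have hS : 0 < S := by
    rw [hSE]
    exact Finset.sum_pos (fun i _ => hpos i) Finset.univ_nonempty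
  refine ⟨2 * S, by positivity, fun N hN => ?_⟩
  have hNR : (2 : ℝ) ≤ N := by exact_mod_cast hN
  have hN0 : (0 : ℝ) < N := by linarith
  have hB : 2 ≤ N ^ (r + 1) := by
    calc 2 ≤ N := hN
      _ = N ^ 1 := (pow_one _).symm
      _ ≤ N ^ (r + 1) := Nat.pow_le_pow_right (by omega) (by omega)
  obtain ⟨a, ha0, hab, hav⟩ := pigeon m (fun i => Real.exp 1 ^ (i : ℕ)) (fun i => (hpos i).le)
    (by rw [← hSE]; exact hS) (N ^ (r + 1)) hB
  rw [← hSE] at hav
  -- digits of the coefficients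
  let P : ℕ → Fin (m + 1) → ℤ := fun k i => (a i).sign * (((a i).natAbs / N ^ k % N : ℕ) : ℤ)
  have hPsum : ∀ i, ∑ k ∈ range (r + 1), (N : ℤ) ^ k * P k i = a i := by
    intro i
    have h1 : ∑ k ∈ range (r + 1), (N : ℤ) ^ k * P k i =
        (a i).sign * ((∑ k ∈ range (r + 1), ((a i).natAbs / N ^ k % N) * N ^ k : ℕ) : ℤ) := by
      rw [Nat.cast_sum, Finset.mul_sum]
      refine Finset.sum_congr rfl fun k _ => ?_
      show (N : ℤ) ^ k * ((a i).sign * (((a i).natAbs / N ^ k % N : ℕ) : ℤ)) = _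
      push_cast
      ring
    rw [h1, digits_sum, Nat.mod_eq_of_lt (hab i)]
    exact Int.sign_mul_natAbs (a i)
  have hPle : ∀ k i, |((P k i : ℤ) : ℝ)| ≤ N := by
    intro k i
    have h1 : (a i).natAbs / N ^ k % N < N := Nat.mod_lt _ (by omega)
    have h2 : (P k i).natAbs ≤ N := by
      show ((a i).sign * (((a i).natAbs / N ^ k % N : ℕ) : ℤ)).natAbs ≤ N
      rw [Int.natAbs_mul, Int.natAbs_natCast]
      have h3 : (a i).sign.natAbs ≤ 1 := by
        rcases Int.sign_trichotomy (a i) with h | h | h <;> rw [h] <;> simp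
      calc (a i).sign.natAbs * ((a i).natAbs / N ^ k % N) ≤ 1 * N := Nat.mul_le_mul h3 h1.le
        _ = N := one_mul _
    rw [← Int.cast_abs, Int.abs_eq_natAbs, Int.cast_natCast]
    exact_mod_cast h2
  let p : ℕ → ℝ := fun k => ∑ i : Fin (m + 1), ((P k i : ℤ) : ℝ) * Real.exp 1 ^ (i : ℕ)
  have hp : ∀ k, |p k| ≤ N * S := by
    intro k
    refine (Finset.abs_sum_le_sum_abs _ _).trans ?_
    rw [hSE, Finset.mul_sum]
    refine Finset.sum_le_sum fun i _ => ?_
    rw [abs_mul, abs_of_pos (hpos i)]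
    exact mul_le_mul_of_nonneg_right (hPle k i) (hpos i).le
  let s : ℕ → ℝ := fun k => Nat.rec 0 (fun n y => (y + p n) / N) k
  have hs0 : s 0 = 0 := rfl
  have hss : ∀ k, s (k + 1) = (s k + p k) / N := fun k => rfl
  have hsb : ∀ k, |s k| ≤ 2 * S := by
    intro k
    induction k with
    | zero => rw [hs0, abs_zero]; positivity
    | succ k ih =>
      rw [hss, abs_div, abs_of_pos hN0, div_le_iff₀ hN0]
      calc |s k + p k| ≤ |s k| + |p k| := abs_add_le _ _
        _ ≤ 2 * S + N * S := add_le_add ih (hp k)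
        _ ≤ 2 * S * N := by nlinarith
  have hsum : ∀ k, (N : ℝ) ^ k * s k = ∑ n ∈ range k, (N : ℝ) ^ n * p n := by
    intro k
    induction k with
    | zero => rw [hs0]; simp
    | succ k ih =>
      rw [Finset.sum_range_succ, ← ih, hss, pow_succ]
      field_simp
  have hfin : (N : ℝ) ^ (r + 1) * s (r + 1) = ∑ i : Fin (m + 1), (a i : ℝ) * Real.exp 1 ^ (i : ℕ) := by
    rw [hsum]
    have h1 : ∀ n ∈ range (r + 1), (N : ℝ) ^ n * p n =
        ∑ i : Fin (m + 1), (((N : ℤ) ^ n * P n i : ℤ) : ℝ) * Real.exp 1 ^ (i : ℕ) := by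
      intro n _
      show (N : ℝ) ^ n * ∑ i : Fin (m + 1), ((P n i : ℤ) : ℝ) * Real.exp 1 ^ (i : ℕ) = _
      rw [Finset.mul_sum]
      refine Finset.sum_congr rfl fun i _ => ?_
      push_cast
      ring
    rw [Finset.sum_congr rfl h1, Finset.sum_comm]
    refine Finset.sum_congr rfl fun i _ => ?_
    rw [← Finset.sum_mul, ← hPsum i]
    push_cast
    rfl
  refine ⟨fun j => s ((j : ℕ) + 1), fun j => hsb ((j : ℕ) + 1),
    fun k => (P k, fun j => (if (k : ℕ) = (j : ℕ) + 1 then 1 else 0) -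
      (if (k : ℕ) = (j : ℕ) then (N : ℤ) else 0)), ?_, fun k => ?_, fun k => ?_⟩
  · rw [Fintype.linearIndependent_iff]
    intro g hg
    have hg1 : ∀ i, ∑ k : Fin (r + 1), g k * P k i = 0 := by
      intro i
      have := congrFun (congrArg Prod.fst hg) i
      rw [Prod.fst_sum, Finset.sum_apply] at this
      exact this
    have hg2 : ∀ j : Fin r, g j.succ = N * g j.castSucc := by
      intro j
      have := congrFun (congrArg Prod.snd hg) j
      rw [Prod.snd_sum, Finset.sum_apply] at this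
      have h3 : ∑ k : Fin (r + 1), g k * ((if (k : ℕ) = (j : ℕ) + 1 then 1 else 0) -
          (if (k : ℕ) = (j : ℕ) then (N : ℤ) else 0)) = 0 := this
      have h4 : ∀ k : Fin (r + 1), g k * ((if (k : ℕ) = (j : ℕ) + 1 then 1 else 0) -
          (if (k : ℕ) = (j : ℕ) then (N : ℤ) else 0)) =
          (if k = j.succ then g k else 0) - (if k = j.castSucc then g k * N else 0) := by
        intro k
        have e1 : ((k : ℕ) = (j : ℕ) + 1) ↔ k = j.succ := by
          rw [Fin.ext_iff, Fin.val_succ]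
        have e2 : ((k : ℕ) = (j : ℕ)) ↔ k = j.castSucc := by
          rw [Fin.ext_iff, Fin.val_castSucc]
        simp only [e1, e2]
        split_ifs <;> ring
      rw [Finset.sum_congr rfl fun k _ => h4 k, Finset.sum_sub_distrib, Finset.sum_ite_eq',
        Finset.sum_ite_eq', if_pos (Finset.mem_univ _), if_pos (Finset.mem_univ _)] at h3
      linarith
    have hg3 : ∀ n : ℕ, ∀ hn : n < r + 1, g ⟨n, hn⟩ = (N : ℤ) ^ n * g 0 := by
      intro n
      induction n with
      | zero => intro hn; simp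
      | succ n ih =>
        intro hn
        have h1 := hg2 ⟨n, by omega⟩
        have h2 := ih (by omega)
        have e1 : (⟨n, by omega⟩ : Fin r).succ = ⟨n + 1, hn⟩ := rfl
        have e2 : (⟨n, by omega⟩ : Fin r).castSucc = ⟨n, by omega⟩ := rfl
        rw [e1, e2, h2] at h1
        rw [h1, pow_succ]
        ring
    have hg0 : g 0 = 0 := by
      obtain ⟨i, hi⟩ : ∃ i, a i ≠ 0 := by
        by_contra hcon
        push Not at hcon
        exact ha0 (funext hcon)
      have h1 := hg1 i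
      have h2 : ∑ k : Fin (r + 1), g k * P k i = g 0 * a i := by
        rw [← hPsum i, Finset.mul_sum, Finset.sum_range]
        refine Finset.sum_congr rfl fun k _ => ?_
        rw [show g k = (N : ℤ) ^ (k : ℕ) * g 0 from hg3 k k.2]
        ring
      rw [h2] at h1
      exact (mul_eq_zero.1 h1).resolve_right hi
    intro k
    rw [show g k = (N : ℤ) ^ (k : ℕ) * g 0 from hg3 k k.2, hg0, mul_zero]
  · rw [Prod.norm_def]
    refine max_le ((pi_norm_le_iff_of_nonneg hN0.le).2 fun i => ?_)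
      ((pi_norm_le_iff_of_nonneg hN0.le).2 fun j => ?_)
    · rw [Int.norm_eq_abs]
      exact hPle k i
    · rw [Int.norm_eq_abs]
      show |((((if (k : ℕ) = (j : ℕ) + 1 then 1 else 0) -
          (if (k : ℕ) = (j : ℕ) then (N : ℤ) else 0) : ℤ)) : ℝ)| ≤ N
      split_ifs with h1 h2 h2
      · omega
      · simp only [sub_zero, Int.cast_one, abs_one]; linarith
      · simp
      · simp only [sub_zero, Int.cast_zero, abs_zero]; linarith
  · have hval : ∑ j : Fin r, ((((if (k : ℕ) = (j : ℕ) + 1 then 1 else 0) -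
          (if (k : ℕ) = (j : ℕ) then (N : ℤ) else 0) : ℤ)) : ℝ) * s ((j : ℕ) + 1) =
        s k - (if (k : ℕ) < r then (N : ℝ) * s ((k : ℕ) + 1) else 0) := by
      have h4 : ∀ j : Fin r, ((((if (k : ℕ) = (j : ℕ) + 1 then 1 else 0) -
          (if (k : ℕ) = (j : ℕ) then (N : ℤ) else 0) : ℤ)) : ℝ) * s ((j : ℕ) + 1) =
          (if (k : ℕ) = (j : ℕ) + 1 then s k else 0) -
            (if (k : ℕ) = (j : ℕ) then (N : ℝ) * s ((k : ℕ) + 1) else 0) := by
        intro j
        by_cases h1 : (k : ℕ) = (j : ℕ) + 1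
        · rw [if_pos h1, if_pos h1, if_neg (by omega), if_neg (by omega), h1]
          push_cast
          ring
        · by_cases h2 : (k : ℕ) = (j : ℕ)
          · rw [if_neg h1, if_neg h1, if_pos h2, if_pos h2, h2]
            push_cast
            ring
          · rw [if_neg h1, if_neg h1, if_neg h2, if_neg h2]
            push_cast
            ring
      rw [Finset.sum_congr rfl fun j _ => h4 j, Finset.sum_sub_distrib]
      congr 1
      · rcases Nat.eq_zero_or_pos (k : ℕ) with h0 | h0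
        · rw [h0, hs0]
          refine Finset.sum_eq_zero fun j _ => ?_
          split_ifs <;> rfl
        · have hk := k.2
          rw [Finset.sum_eq_single (⟨(k : ℕ) - 1, by omega⟩ : Fin r)]
          · rw [if_pos]
            show (k : ℕ) = (k : ℕ) - 1 + 1
            omega
          · intro j _ hj
            rw [if_neg]
            intro h
            apply hj
            apply Fin.ext
            show (j : ℕ) = (k : ℕ) - 1
            omega
          · intro h
            exact absurd (Finset.mem_univ _) h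
      · split_ifs with hk
        · rw [Finset.sum_eq_single (⟨(k : ℕ), hk⟩ : Fin r)]
          · rw [if_pos rfl]
          · intro j _ hj
            rw [if_neg]
            intro h
            apply hj
            apply Fin.ext
            exact h.symm
          · intro h
            exact absurd (Finset.mem_univ _) h
        · refine Finset.sum_eq_zero fun j _ => ?_
          rw [if_neg]
          have := j.2
          omega
    show |p k + ∑ j : Fin r, ((((if (k : ℕ) = (j : ℕ) + 1 then 1 else 0) -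
          (if (k : ℕ) = (j : ℕ) then (N : ℤ) else 0) : ℤ)) : ℝ) * s ((j : ℕ) + 1)| ≤ _
    rw [hval]
    split_ifs with hk
    · have h1 : p k + (s k - (N : ℝ) * s ((k : ℕ) + 1)) = 0 := by
        rw [hss]
        field_simp
        ring
      rw [h1, abs_zero]
      positivity
    · have hkr : (k : ℕ) = r := by have := k.2; omega
      have h1 : p k + (s k - 0) = (∑ i : Fin (m + 1), (a i : ℝ) * Real.exp 1 ^ (i : ℕ)) / (N : ℝ) ^ r := by
        rw [← hfin, hkr, hss, pow_succ]
        field_simp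
        ring
      rw [h1, abs_div, abs_of_pos (show (0 : ℝ) < (N : ℝ) ^ r by positivity),
        div_le_iff₀ (by positivity)]
      refine hav.trans (le_of_eq ?_)
      push_cast
      rw [← pow_mul, pow_add (N : ℝ) ((r + 1) * m) r]
      field_simp

end Pool.Agent.Z3h92.Rel
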