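import Mathlib

/-!
Real numbers which behave like a generic number at the scale `N`.
-/

set_option autoImplicit false

open Polynomial

namespace Pool.Agent.Z3h92

/-- `x` is generic at the scale `N`, with the exponent `δ` and for the degrees up to `k`:
* `dioph`: no multiple `m x` with `1 ≤ m ≤ N ^ δ` is within `N ^ (δ - 1)` of an integer;
* `primes`: for all integers `c ≠ 0`, `|c| ≤ N ^ δ`, and all real `β` the number of the primes
  `p ≤ N` for which `c x p + β` lies in `[a, b)` modulo one is `(b - a) π(N)` up to `N ^ (1 - δ)`;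
* `polys`: for all real polynomials `R` of degree `j ≤ k` with leading coefficient `c x`, `c ≠ 0` an
  integer with `|c| ≤ N ^ δ`, the number of the `n < N` for which `R(n)` lies in `[a, b)` modulo one
  is `(b - a) N` up to `N ^ (1 - δ)`. -/
structure Generic (δ : ℝ) (k N : ℕ) (x : ℝ) : Prop where
  dioph : ∀ m : ℕ, 1 ≤ m → (m : ℝ) ≤ (N : ℝ) ^ δ → ∀ z : ℤ, (N : ℝ) ^ (δ - 1) < |m * x - z|
  primes : ∀ (c : ℤ) (β a b : ℝ), c ≠ 0 → |(c : ℝ)| ≤ (N : ℝ) ^ δ → 0 ≤ a → a ≤ b → b ≤ 1 →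
    |(((Finset.range (N + 1)).filter (fun p : ℕ => p.Prime ∧ a ≤ Int.fract (c * x * p + β) ∧
      Int.fract (c * x * p + β) < b)).card : ℝ) - (b - a) * Nat.primeCounting N| ≤
        (N : ℝ) ^ (1 - δ)
  polys : ∀ (j : ℕ) (R : ℝ[X]) (c : ℤ) (a b : ℝ), 1 ≤ j → j ≤ k → R.natDegree ≤ j →
    R.coeff j = c * x → c ≠ 0 → |(c : ℝ)| ≤ (N : ℝ) ^ δ → 0 ≤ a → a ≤ b → b ≤ 1 →
    |(((Finset.range N).filter (fun n : ℕ => a ≤ Int.fract (R.eval (n : ℝ)) ∧
      Int.fract (R.eval (n : ℝ)) < b)).card : ℝ) - (b - a) * N| ≤ (N : ℝ) ^ (1 - δ)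

end Pool.Agent.Z3h92
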