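import Mathlib
import Pool.Agent.Z3h92.Generic
import Pool.Agent.Z3h92.DioOr

/-!
At every scale all the rational combinations `(u t + P(θ)) / v` except those of one class are generic.
-/

set_option autoImplicit false

open Polynomial Filter Topology

namespace Pool.Agent.Z3h92

open Pool.Agent.TH456.TM

lemma exists_lower (k : ℕ) (f : ℕ → ℝ) (hf : ∀ d, 0 < f d) : ∃ δ : ℝ, 0 < δ ∧ ∀ d < k, δ ≤ f d := by
  induction k with
  | zero => exact ⟨1, one_pos, fun d hd => by omega⟩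
  | succ k ih =>
    obtain ⟨δ, h0, h1⟩ := ih
    refine ⟨min δ (f k), lt_min h0 (hf k), fun d hd => ?_⟩
    rcases Nat.lt_succ_iff_lt_or_eq.1 hd with h | rfl
    · exact (min_le_left _ _).trans (h1 d h)
    · exact min_le_right _ _

/-- the Diophantine condition implies the rest -/
theorem generic_of_dio (η : ℝ) (hη : 0 < η) (hη1 : η ≤ 1 / 2) (k : ℕ) : ∃ δ : ℝ, 0 < δ ∧ δ ≤ η ∧
    ∃ N₀ : ℕ, ∀ N : ℕ, N₀ ≤ N → ∀ x : ℝ, Dio η N x → Generic δ k N x := by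
  obtain ⟨δ₁, hδ₁, B₁, hB₁, h1⟩ := primes_of_dio η hη hη1
  choose δf hδf0 hδf1 Bf hBf0 hpoly using poly_of_dio η hη hη1
  obtain ⟨δ₂, hδ₂, h2⟩ := exists_lower k δf hδf0
  obtain ⟨B₂, hB₂⟩ : ∃ B₂ : ℝ, B₂ = ∑ d ∈ Finset.range k, Bf d := ⟨_, rfl⟩
  have hB₂le : ∀ d < k, Bf d ≤ B₂ := by
    intro d hd
    rw [hB₂]
    exact Finset.single_le_sum (f := Bf) (fun i _ => (hBf0 i).le) (Finset.mem_range.2 hd)
  obtain ⟨δ, hδ⟩ : ∃ δ : ℝ, δ = min η (min δ₁ δ₂) / 2 := ⟨_, rfl⟩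
  have hm0 : 0 < min η (min δ₁ δ₂) := lt_min hη (lt_min hδ₁ hδ₂)
  have hδ0 : 0 < δ := by rw [hδ]; positivity
  have e1 : 2 * δ ≤ η := by rw [hδ]; linarith [min_le_left η (min δ₁ δ₂)]
  have e2 : 2 * δ ≤ δ₁ := by
    rw [hδ]; linarith [min_le_right η (min δ₁ δ₂), min_le_left δ₁ δ₂]
  have e3 : 2 * δ ≤ δ₂ := by
    rw [hδ]; linarith [min_le_right η (min δ₁ δ₂), min_le_right δ₁ δ₂]
  have h3 : Tendsto (fun N : ℕ => (N : ℝ) ^ δ) atTop atTop :=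
    (tendsto_rpow_atTop hδ0).comp tendsto_natCast_atTop_atTop
  obtain ⟨N₁, hN₁⟩ := eventually_atTop.1 (h3.eventually_ge_atTop (max B₁ B₂))
  refine ⟨δ, hδ0, by linarith, N₁ + 1, fun N hN x hD => ?_⟩
  have hN1 : (1 : ℝ) ≤ N := by exact_mod_cast (by omega : 1 ≤ N)
  have hNp : (0 : ℝ) < N := by linarith
  have hbig := hN₁ N (by omega)
  have hB1 : B₁ ≤ (N : ℝ) ^ δ := (le_max_left _ _).trans hbig
  have hB2 : B₂ ≤ (N : ℝ) ^ δ := (le_max_right _ _).trans hbig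
  have habs : ∀ B δ' : ℝ, B ≤ (N : ℝ) ^ δ → 2 * δ ≤ δ' → B * (N : ℝ) ^ (1 - δ') ≤ (N : ℝ) ^ (1 - δ) := by
    intro B δ' hB hδ'
    calc B * (N : ℝ) ^ (1 - δ') ≤ (N : ℝ) ^ δ * (N : ℝ) ^ (1 - δ') := by gcongr
      _ = (N : ℝ) ^ (δ + (1 - δ')) := by rw [Real.rpow_add hNp]
      _ ≤ (N : ℝ) ^ (1 - δ) := Real.rpow_le_rpow_of_exponent_le hN1 (by linarith)
  have hmono : ∀ δ' : ℝ, 2 * δ ≤ δ' → (N : ℝ) ^ δ ≤ (N : ℝ) ^ δ' := fun δ' h =>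
    Real.rpow_le_rpow_of_exponent_le hN1 (by linarith)
  refine ⟨?_, ?_, ?_⟩
  · intro m hm1 hm2 z
    refine lt_of_le_of_lt ?_ (hD m hm1 (hm2.trans (hmono η e1)) z)
    exact Real.rpow_le_rpow_of_exponent_le hN1 (by linarith)
  · intro c β a b hc hcle ha hab hb
    have h4 := h1 N x (by omega) hD c β a b hc (hcle.trans (hmono δ₁ e2)) ha hab hb
    have h5 : ((Finset.range (N + 1)).filter Nat.Prime).card = Nat.primeCounting N := by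
      unfold Nat.primeCounting Nat.primeCounting'
      rw [Nat.count_eq_card_filter_range]
    rw [h5, Finset.filter_filter] at h4
    rw [mul_comm (b - a)]
    exact h4.trans (habs _ _ hB1 e2)
  · intro j R c a b hj1 hjk hRd hRc hc hcle ha hab hb
    obtain ⟨d, rfl⟩ : ∃ d, j = d + 1 := ⟨j - 1, by omega⟩
    have hdk : d < k := by omega
    have e4 : 2 * δ ≤ δf d := e3.trans (h2 d hdk)
    have h4 := hpoly d N x (by omega) hD R c a b hRd hRc hc (hcle.trans (hmono _ e4)) ha hab hb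
    rw [mul_comm (b - a)]
    exact h4.trans (habs _ _ ((hB₂le d hdk).trans hB2) e4)

theorem generic_or {θ : ℝ} (hθ : MeasT (θ : ℂ)) (m k : ℕ) : ∃ δ : ℝ, 0 < δ ∧ ∃ N₀ : ℕ,
    ∀ N : ℕ, N₀ ≤ N → ∀ (t : ℝ) (u v u' v' : ℤ) (P P' : ℤ[X]), v ≠ 0 → v' ≠ 0 →
      |(u : ℝ)| ≤ (N : ℝ) ^ δ → |(v : ℝ)| ≤ (N : ℝ) ^ δ →
      |(u' : ℝ)| ≤ (N : ℝ) ^ δ → |(v' : ℝ)| ≤ (N : ℝ) ^ δ →
      P.natDegree ≤ m → P'.natDegree ≤ m →
      (∀ i, |(P.coeff i : ℝ)| ≤ (N : ℝ) ^ δ) → (∀ i, |(P'.coeff i : ℝ)| ≤ (N : ℝ) ^ δ) →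
      (C u' * P - C u * P').natDegree ≠ 0 →
      Generic δ k N ((u * t + aeval θ P) / v) ∨ Generic δ k N ((u' * t + aeval θ P') / v') := by
  obtain ⟨η, hη, hη1, N₁, h1⟩ := dio_or hθ m
  obtain ⟨δ, hδ, hδη, N₂, h2⟩ := generic_of_dio η hη hη1 k
  refine ⟨δ, hδ, N₁ + N₂ + 1, ?_⟩
  intro N hN t u v u' v' P P' hv hv' hu hvE hu' hvE' hP hP' hPE hPE' hdeg
  have hN1 : (1 : ℝ) ≤ N := by exact_mod_cast (by omega : 1 ≤ N)
  have hmono : (N : ℝ) ^ δ ≤ (N : ℝ) ^ η := Real.rpow_le_rpow_of_exponent_le hN1 hδη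
  rcases h1 N (by omega) t u v u' v' P P' hv hv' (hu.trans hmono) (hvE.trans hmono)
    (hu'.trans hmono) (hvE'.trans hmono) hP hP' (fun i => (hPE i).trans hmono)
    (fun i => (hPE' i).trans hmono) hdeg with h | h
  · exact Or.inl (h2 N (by omega) _ h)
  · exact Or.inr (h2 N (by omega) _ h)

end Pool.Agent.Z3h92
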