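import Pool.Agent.R356.Joint

/-!
# Degrees, coefficients and values of the factors of a polynomial in two variables
-/

set_option autoImplicit false

namespace Pool.Agent.Z3h92.Rel

open Polynomial Finset
open Pool.Agent.TH456.TM

theorem coeff_swap (P : ℤ[X][X]) (i j : ℕ) :
    ((Bivariate.swap P).coeff i).coeff j = (P.coeff j).coeff i := by
  induction P using Polynomial.induction_on' with
  | add p q hp hq => simp only [map_add, coeff_add, hp, hq]
  | monomial n a =>
    induction a using Polynomial.induction_on' with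
    | add p q hp hq => simp only [map_add, coeff_add, hp, hq]
    | monomial m r =>
      rw [Bivariate.swap_monomial_monomial]
      simp only [coeff_monomial]
      by_cases h1 : m = i <;> by_cases h2 : n = j <;> simp [h1, h2, coeff_monomial]

/-- the degree in the inner variable -/
noncomputable def dX (P : ℤ[X][X]) : ℕ := (Bivariate.swap P).natDegree

theorem natDegree_coeff_le (P : ℤ[X][X]) (j : ℕ) : (P.coeff j).natDegree ≤ dX P := by
  unfold dX
  rw [natDegree_le_iff_coeff_eq_zero]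
  intro N hN
  rw [← coeff_swap, coeff_eq_zero_of_natDegree_lt hN, coeff_zero]

theorem dX_le (P : ℤ[X][X]) (e : ℕ) (h : ∀ j, (P.coeff j).natDegree ≤ e) : dX P ≤ e := by
  unfold dX
  rw [natDegree_le_iff_coeff_eq_zero]
  intro N hN
  ext j
  rw [coeff_swap, coeff_zero]
  exact coeff_eq_zero_of_natDegree_lt (lt_of_le_of_lt (h j) hN)

theorem swap_ne_zero {P : ℤ[X][X]} (h : P ≠ 0) : Bivariate.swap P ≠ 0 := by
  intro h0
  apply h
  rw [← Bivariate.swap_swap_apply P, h0, map_zero]

theorem dX_mul (P Q : ℤ[X][X]) (hP : P ≠ 0) (hQ : Q ≠ 0) : dX (P * Q) = dX P + dX Q := by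
  unfold dX
  rw [map_mul, natDegree_mul (swap_ne_zero hP) (swap_ne_zero hQ)]

/-- the substitution `Y = X ^ N` -/
noncomputable def kr (N : ℕ) : ℤ[X][X] →+* ℤ[X] := evalRingHom (X ^ N)

theorem kr_coeff (N : ℕ) (P : ℤ[X][X]) (h : dX P < N) (j i : ℕ) (hi : i < N) :
    (kr N P).coeff (N * j + i) = (P.coeff j).coeff i := by
  have h1 : kr N P = ∑ k ∈ P.support, P.coeff k * (X ^ N) ^ k := by
    unfold kr
    rw [coe_evalRingHom, eval_eq_sum, sum_def]
  rw [h1, finset_sum_coeff]
  have h2 : ∀ k ∈ P.support, k ≠ j → (P.coeff k * (X ^ N) ^ k).coeff (N * j + i) = 0 := by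
    intro k _ hk
    rw [← pow_mul, coeff_mul_X_pow']
    split_ifs with h3
    · have h4 : k < j := by
        by_contra hcon
        push Not at hcon
        have h5 : j + 1 ≤ k := by omega
        have h6 : N * (j + 1) ≤ N * k := Nat.mul_le_mul_left _ h5
        rw [Nat.mul_succ] at h6
        omega
      refine coeff_eq_zero_of_natDegree_lt (lt_of_le_of_lt (natDegree_coeff_le P k) (h.trans_le ?_))
      have h5 : k + 1 ≤ j := h4
      have h6 : N * (k + 1) ≤ N * j := Nat.mul_le_mul_left _ h5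
      rw [Nat.mul_succ] at h6
      omega
    · rfl
  rw [Finset.sum_eq_single j h2]
  · rw [← pow_mul, coeff_mul_X_pow', if_pos (Nat.le_add_right _ _)]
    congr 1
    omega
  · intro hj
    rw [notMem_support_iff.1 hj, zero_mul, coeff_zero]

theorem kr_ne_zero (N : ℕ) (P : ℤ[X][X]) (h : dX P < N) (hP : P ≠ 0) : kr N P ≠ 0 := by
  intro h0
  apply hP
  ext j i
  rw [coeff_zero, coeff_zero]
  by_cases hi : i < N
  · rw [← kr_coeff N P h j i hi, h0, coeff_zero]
  · exact coeff_eq_zero_of_natDegree_lt (lt_of_le_of_lt (natDegree_coeff_le P j) (by omega))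

theorem kr_natDegree (N : ℕ) (P : ℤ[X][X]) (D E : ℕ) (hD : P.natDegree ≤ D) (hE : dX P ≤ E) :
    (kr N P).natDegree ≤ E + N * D := by
  have h1 : kr N P = ∑ k ∈ P.support, P.coeff k * (X ^ N) ^ k := by
    unfold kr
    rw [coe_evalRingHom, eval_eq_sum, sum_def]
  rw [h1]
  refine natDegree_sum_le_of_forall_le _ _ fun k hk => ?_
  have h2 : k ≤ D := (le_natDegree_of_mem_supp k hk).trans hD
  refine natDegree_mul_le.trans ?_
  have h3 : ((X ^ N : ℤ[X]) ^ k).natDegree = N * k := by
    rw [← pow_mul, natDegree_X_pow]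
  rw [h3]
  have h4 := (natDegree_coeff_le P k).trans hE
  have h5 : N * k ≤ N * D := Nat.mul_le_mul_left _ h2
  omega

/-- every coefficient of `kr N P` is a coefficient of `P` -/
theorem kr_coeff_bound (N : ℕ) (P : ℤ[X][X]) (h : dX P < N) (H : ℝ)
    (hH : ∀ j i, |(((P.coeff j).coeff i : ℤ) : ℝ)| ≤ H) (k : ℕ) :
    |(((kr N P).coeff k : ℤ) : ℝ)| ≤ H := by
  have hN : 0 < N := by omega
  have h1 : k = N * (k / N) + k % N := (Nat.div_add_mod k N).symm
  rw [h1, kr_coeff N P h _ _ (Nat.mod_lt _ hN)]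
  exact hH _ _

/-- coefficients of a factor -/
theorem height_factor2 (D E : ℕ) (A B : ℤ[X][X]) (hA : A ≠ 0) (hB : B ≠ 0)
    (hD : (A * B).natDegree ≤ D) (hE : dX (A * B) ≤ E)
    (H : ℝ) (hH : ∀ j i, |((((A * B).coeff j).coeff i : ℤ) : ℝ)| ≤ H) (j i : ℕ) :
    |(((A.coeff j).coeff i : ℤ) : ℝ)| ≤
      2 ^ (E + (E + 1) * D) * ((E + (E + 1) * D : ℕ) + 1) * H := by
  have h0 := dX_mul A B hA hB
  have hAE : dX A < E + 1 := by omega
  have hBE : dX B < E + 1 := by omega
  have hH0 : 0 ≤ H := (abs_nonneg _).trans (hH 0 0)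
  by_cases hi : i < E + 1
  · rw [← kr_coeff (E + 1) A hAE j i hi]
    have h1 := kr_natDegree (E + 1) (A * B) D E hD hE
    rw [map_mul] at h1
    exact Pool.Agent.R356.height_factor (E + (E + 1) * D) (kr (E + 1) A) (kr (E + 1) B)
      (kr_ne_zero _ A hAE hA) (kr_ne_zero _ B hBE hB) h1 H (fun k => by
        rw [← map_mul]
        exact kr_coeff_bound (E + 1) (A * B) (by omega) H hH k) _
  · have h1 : (A.coeff j).coeff i = 0 :=
      coeff_eq_zero_of_natDegree_lt (lt_of_le_of_lt (natDegree_coeff_le A j) (by omega))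
    rw [h1]
    simp only [Int.cast_zero, abs_zero]
    positivity

theorem vl_mul (x t : ℂ) (P Q : ℤ[X][X]) : vl x t (P * Q) = vl x t P * vl x t Q := by
  unfold vl
  rw [Polynomial.map_mul, eval_mul]

theorem vl_C (x t : ℂ) (p : ℤ[X]) : vl x t (C p) = aeval x p := by
  unfold vl
  rw [map_C, eval_C]
  rfl

/-- values of a polynomial whose irreducible factors have large values -/
theorem value_of_factors2 (x t : ℂ) (δ : ℝ) (hδ : 0 < δ) (hδ1 : δ ≤ 1) (P : ℤ[X][X]) (hP : P ≠ 0)
    (h : ∀ q : ℤ[X][X], Irreducible q → q ∣ P → 0 < q.natDegree + dX q → δ ≤ ‖vl x t q‖) :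
    δ ^ (P.natDegree + dX P) ≤ ‖vl x t P‖ := by
  induction P using UniqueFactorizationMonoid.induction_on_prime with
  | h₁ => exact absurd rfl hP
  | h₂ a ha =>
    obtain ⟨r, hr, rfl⟩ := Polynomial.isUnit_iff.1 ha
    obtain ⟨s, hs, rfl⟩ := Polynomial.isUnit_iff.1 hr
    have h1 : dX (C (C s)) = 0 := by
      have := dX_le (C (C s)) 0 (fun j => by
        rw [coeff_C]
        split_ifs <;> simp)
      omega
    rw [natDegree_C, h1, pow_zero, vl_C, aeval_C, eq_intCast, Complex.norm_intCast]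
    rcases Int.isUnit_iff.1 hs with h | h <;> rw [h] <;> simp
  | h₃ a p ha hp ih =>
    have h1 := ih ha fun q hq hqa => h q hq (hqa.mul_left p)
    have h4 : (p * a).natDegree + dX (p * a) = (p.natDegree + dX p) + (a.natDegree + dX a) := by
      rw [natDegree_mul hp.ne_zero ha, dX_mul p a hp.ne_zero ha]
      ring
    rw [h4, vl_mul, norm_mul, pow_add]
    refine mul_le_mul ?_ h1 (by positivity) (norm_nonneg _)
    by_cases hd : p.natDegree + dX p = 0
    · rw [hd, pow_zero]
      have h2 : p = C (p.coeff 0) := eq_C_of_natDegree_eq_zero (by omega)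
      have h3 : p.coeff 0 = C ((p.coeff 0).coeff 0) := by
        refine eq_C_of_natDegree_eq_zero ?_
        have := natDegree_coeff_le p 0
        omega
      have h5 : (p.coeff 0).coeff 0 ≠ 0 := fun h => hp.ne_zero (by rw [h2, h3, h, C_0, C_0])
      rw [h2, h3, vl_C, aeval_C, eq_intCast, Complex.norm_intCast, ← Int.cast_abs]
      exact_mod_cast Int.one_le_abs h5
    · refine le_trans ?_ (h p hp.irreducible (dvd_mul_right p a) (by omega))
      exact pow_le_of_le_one hδ.le hδ1 hd

end Pool.Agent.Z3h92.Rel
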