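import Mathlib

/-!
# Boxes of integer polynomials in two variables
-/

set_option autoImplicit false

namespace Pool.Agent.Z3h92.Rel

open Polynomial

/-- `F ∈ ℤ[X][Y]` has degree at most `D` in each of the two variables and all its integer
coefficients have absolute value at most `H` -/
def Box (D : ℕ) (H : ℝ) (F : ℤ[X][X]) : Prop :=
  F.natDegree ≤ D ∧ (∀ j, (F.coeff j).natDegree ≤ D) ∧
    ∀ j i, |(((F.coeff j).coeff i : ℤ) : ℝ)| ≤ H

end Pool.Agent.Z3h92.Rel
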