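import Pool.Agent.Z3h92.Rel

/-!
# A criterion for algebraic dependence
-/

set_option autoImplicit false

namespace Pool.Agent.Z3h92.Rel

open Polynomial Finset
open Pool.Agent.TH456.TM

theorem box_finite (D : ℕ) (H : ℝ) : {F : ℤ[X][X] | Box D H F}.Finite :=
  (fin_set D H).subset fun F hF => ⟨hF.1, hF.2.1, hgt_le hF⟩

theorem box_hgt {D : ℕ} {F : ℤ[X][X]} (h1 : F.natDegree ≤ D) (h2 : ∀ j, (F.coeff j).natDegree ≤ D) :
    Box D (hgt F) F := by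
  refine ⟨h1, h2, fun j i => ?_⟩
  rw [← Int.cast_abs, Int.abs_eq_natAbs, Int.cast_natCast]
  exact_mod_cast le_hgt F j i

/-- near relations at all large scales give a relation -/
theorem criterion (x : ℂ) (hx : MeasT x) (D : ℕ) (hD : 1 ≤ D) :
    ∃ κ : ℝ, 0 < κ ∧ ∀ t : ℂ,
      (∃ F : ℤ[X][X], F ≠ 0 ∧ F.natDegree ≤ D ∧ (∀ j, (F.coeff j).natDegree ≤ D) ∧
        vl x t F = 0) ↔
      ∃ Y : ℝ, ∀ H : ℝ, Y ≤ H → ∃ F : ℤ[X][X], F ≠ 0 ∧ Box D H F ∧ ‖vl x t F‖ ≤ H ^ (-κ) := by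
  obtain ⟨κ, hκ, h⟩ := one_irreducible x hx D hD
  have hDR : (1 : ℝ) ≤ D := by exact_mod_cast hD
  refine ⟨2 * D * κ + 1, by positivity, fun t => ⟨?_, ?_⟩⟩
  · rintro ⟨F, hF, h1, h2, h3⟩
    refine ⟨max 1 (hgt F), fun H hH => ⟨F, hF, (box_hgt h1 h2).mono ((le_max_right _ _).trans hH), ?_⟩⟩
    rw [h3, norm_zero]
    exact Real.rpow_nonneg (by linarith [(le_max_left (1 : ℝ) (hgt F)).trans hH]) _
  · rintro ⟨Y₀, hY₀⟩
    obtain ⟨c, K, hc, hK, h⟩ := h κ le_rfl ‖t‖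
    obtain ⟨Y, hY⟩ : ∃ Y : ℝ, Y = max (max 1 Y₀) (2 / c) := ⟨_, rfl⟩
    have hY1 : 1 ≤ Y := by rw [hY]; exact (le_max_left _ _).trans (le_max_left _ _)
    have hYY : Y₀ ≤ Y := by rw [hY]; exact (le_max_right _ _).trans (le_max_left _ _)
    have hYc : 2 / c ≤ Y := by rw [hY]; exact le_max_right _ _
    have hnear : ∀ H : ℝ, Y ≤ H → ∃ F : ℤ[X][X], F ≠ 0 ∧ Box D H F ∧
        ‖vl x t F‖ < c * H ^ (-(2 * D * κ)) := by
      intro H hH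
      have hH0 : 0 < H := by linarith
      obtain ⟨F, hF, hFB, hFv⟩ := hY₀ H (hYY.trans hH)
      refine ⟨F, hF, hFB, hFv.trans_lt ?_⟩
      have h1 : -(2 * D * κ + 1) = -(2 * D * κ) + -1 := by ring
      rw [h1, Real.rpow_add hH0, Real.rpow_neg_one, mul_comm]
      have h2 : 0 < H ^ (-(2 * D * κ)) := Real.rpow_pos_of_pos hH0 _
      refine mul_lt_mul_of_pos_right ?_ h2
      rw [inv_lt_comm₀ hH0 hc]
      have h3 : c⁻¹ < 2 / c := by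
        rw [div_eq_mul_inv]
        have : 0 < c⁻¹ := by positivity
        linarith
      linarith
    have hP : ∀ Z : ℝ, Y ≤ Z → ∃ P : ℤ[X][X], Irreducible P ∧ Box D (K * Y) P ∧
        ‖vl x t P‖ < Z ^ (-κ) := by
      intro Z hZ
      obtain ⟨P, h1, h2, h3, _⟩ := h t le_rfl Y Z hY1 hZ fun H h1 _ => hnear H h1
      exact ⟨P, h1, h2, h3⟩
    -- a finite set of possible polynomials
    by_contra hcon
    push Not at hcon
    have hpos : ∀ P ∈ {P : ℤ[X][X] | Box D (K * Y) P ∧ P ≠ 0}, 0 < ‖vl x t P‖ := by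
      rintro P ⟨hP1, hP0⟩
      exact norm_pos_iff.2 (hcon P hP0 hP1.1 hP1.2.1)
    have hfin : {P : ℤ[X][X] | Box D (K * Y) P ∧ P ≠ 0}.Finite :=
      (box_finite D (K * Y)).subset fun P hP => hP.1
    obtain ⟨P₁, hP₁, hP₁B, _⟩ := hP Y le_rfl
    obtain ⟨P₂, hP₂, hmin⟩ := hfin.exists_minimalFor (fun P => ‖vl x t P‖) _
      ⟨P₁, hP₁B, hP₁.ne_zero⟩
    have h0 := hpos P₂ hP₂
    have htend : Filter.Tendsto (fun Z : ℝ => Z ^ (-κ)) Filter.atTop (nhds 0) :=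
      tendsto_rpow_neg_atTop hκ
    have hev := (htend.eventually (gt_mem_nhds h0)).and (Filter.eventually_ge_atTop Y)
    obtain ⟨Z, hZ1, hZ2⟩ := hev.exists
    obtain ⟨P, hP, hPB, hPv⟩ := hP Z hZ2
    have h5 := hmin (show P ∈ {P : ℤ[X][X] | Box D (K * Y) P ∧ P ≠ 0} from ⟨hPB, hP.ne_zero⟩)
    have h6 : ‖vl x t P₂‖ ≤ ‖vl x t P‖ := by
      rcases le_total ‖vl x t P₂‖ ‖vl x t P‖ with h7 | h7
      · exact h7
      · exact h5 h7
    linarith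

end Pool.Agent.Z3h92.Rel
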