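import Pool.Agent.Z3h92.BiFactor
import Pool.Agent.Z3h92.Box

/-!
# One irreducible near relation at each scale
-/

set_option autoImplicit false

namespace Pool.Agent.Z3h92.Rel

open Polynomial Finset
open Pool.Agent.TH456.TM

theorem Box.mono {D : ℕ} {H H' : ℝ} {F : ℤ[X][X]} (h : Box D H F) (hH : H ≤ H') : Box D H' F :=
  ⟨h.1, h.2.1, fun j i => (h.2.2 j i).trans hH⟩

theorem Box.neg {D : ℕ} {H : ℝ} {F : ℤ[X][X]} (h : Box D H F) : Box D H (-F) := by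
  refine ⟨by rw [natDegree_neg]; exact h.1, fun j => ?_, fun j i => ?_⟩
  · rw [coeff_neg, natDegree_neg]; exact h.2.1 j
  · rw [coeff_neg, coeff_neg, Int.cast_neg, abs_neg]; exact h.2.2 j i

theorem hgt_le {D : ℕ} {H : ℝ} {F : ℤ[X][X]} (h : Box D H F) : (hgt F : ℝ) ≤ H := by
  have hH0 : 0 ≤ H := (abs_nonneg _).trans (h.2.2 0 0)
  have h1 : hgt F ≤ ⌊H⌋₊ := by
    unfold hgt
    refine Finset.sup_le fun j _ => Finset.sup_le fun i _ => ?_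
    refine Nat.le_floor ?_
    have h2 := h.2.2 j i
    rw [← Int.cast_abs, Int.abs_eq_natAbs, Int.cast_natCast] at h2
    exact h2
  calc (hgt F : ℝ) ≤ (⌊H⌋₊ : ℝ) := by exact_mod_cast h1
    _ ≤ H := Nat.floor_le hH0

theorem vl_neg (x t : ℂ) (P : ℤ[X][X]) : vl x t (-P) = -vl x t P := by
  unfold vl
  rw [Polynomial.map_neg, eval_neg]

/-- normalisation of the sign -/
theorem exists_IR {D : ℕ} {H : ℝ} {P : ℤ[X][X]} (hP : Irreducible P) (h : Box D H P) (x t : ℂ) :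
    ∃ Q ∈ IR D, Associated P Q ∧ (hgt Q : ℝ) ≤ H ∧ ‖vl x t Q‖ = ‖vl x t P‖ := by
  rcases lt_trichotomy P.leadingCoeff.leadingCoeff 0 with h1 | h1 | h1
  · refine ⟨-P, ⟨(Associated.neg_right (Associated.refl P)).irreducible hP, h.neg.1, h.neg.2.1, ?_⟩,
      Associated.neg_right (Associated.refl P), hgt_le h.neg, by rw [vl_neg, norm_neg]⟩
    rw [leadingCoeff_neg, leadingCoeff_neg]
    linarith
  · exfalso
    rw [leadingCoeff_eq_zero, leadingCoeff_eq_zero] at h1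
    exact hP.ne_zero h1
  · exact ⟨P, ⟨hP, h.1, h.2.1, h1⟩, Associated.refl P, hgt_le h, rfl⟩

/-- two irreducible polynomials which are not associated are not both small -/
theorem core_assoc (x : ℂ) (hx : MeasT x) (D : ℕ) (hD : 1 ≤ D) :
    ∃ κ : ℝ, 0 < κ ∧ ∀ T : ℝ, ∃ C : ℝ, 0 < C ∧ ∀ t : ℂ, ‖t‖ ≤ T → ∀ P Q : ℤ[X][X],
      Irreducible P → Irreducible Q → ¬ Associated P Q → ∀ H : ℝ, Box D H P → Box D H Q →
        C * H ^ (-κ) ≤ max ‖vl x t P‖ ‖vl x t Q‖ := by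
  obtain ⟨κ, hκ, h⟩ := core x hx D hD
  refine ⟨κ, hκ, fun T => ?_⟩
  obtain ⟨C, hC, h⟩ := h T
  refine ⟨C, hC, ?_⟩
  intro t ht P Q hP hQ hne H hPH hQH
  obtain ⟨P', hP', hPa, hP1, hP2⟩ := exists_IR hP hPH x t
  obtain ⟨Q', hQ', hQa, hQ1, hQ2⟩ := exists_IR hQ hQH x t
  rw [← hP2, ← hQ2]
  refine h t ht P' hP' Q' hQ' ?_ H hP1 hQ1
  rintro rfl
  exact hne (hPa.trans hQa.symm)

/-- a small value of a polynomial comes from a small value of an irreducible factor -/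
theorem small_factor (D : ℕ) (hD : 1 ≤ D) : ∃ K : ℝ, 1 ≤ K ∧ ∀ x t : ℂ, ∀ H δ : ℝ, 0 < δ → δ ≤ 1 →
    ∀ F : ℤ[X][X], F ≠ 0 → Box D H F → ‖vl x t F‖ < δ ^ (2 * D) →
      ∃ q : ℤ[X][X], Irreducible q ∧ q ∣ F ∧ Box D (K * H) q ∧ ‖vl x t q‖ < δ := by
  obtain ⟨K, hK⟩ : ∃ K : ℝ, K = 2 ^ (D + (D + 1) * D) * ((D + (D + 1) * D : ℕ) + 1) := ⟨_, rfl⟩
  have hK1 : 1 ≤ K := by
    rw [hK]
    have h1 : (1 : ℝ) ≤ 2 ^ (D + (D + 1) * D) := one_le_pow₀ (by norm_num)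
    have h2 : (0 : ℝ) ≤ ((D + (D + 1) * D : ℕ) : ℝ) := by positivity
    nlinarith
  refine ⟨K, hK1, ?_⟩
  intro x t H δ hδ hδ1 F hF hFB hFδ
  have hdX : dX F ≤ D := dX_le F D hFB.2.1
  by_contra hcon
  push Not at hcon
  have hfac : ∀ q : ℤ[X][X], q ∣ F → Box D (K * H) q := by
    rintro q ⟨r, hr⟩
    have hq0 : q ≠ 0 := by
      rintro rfl
      rw [zero_mul] at hr
      exact hF hr
    have hr0 : r ≠ 0 := by
      rintro rfl
      rw [mul_zero] at hr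
      exact hF hr
    have h1 := natDegree_mul hq0 hr0
    rw [← hr] at h1
    have h2 := dX_mul q r hq0 hr0
    rw [← hr] at h2
    have h3 := hFB.1
    refine ⟨by omega, fun j => (natDegree_coeff_le q j).trans (by omega), fun j i => ?_⟩
    rw [hK]
    exact height_factor2 D D q r hq0 hr0 (by rw [← hr]; exact h3) (by rw [← hr]; exact hdX) H
      (fun j k => by rw [← hr]; exact hFB.2.2 j k) j i
  have h1 := value_of_factors2 x t δ hδ hδ1 F hF fun q hq hqF _ => hcon q hq hqF (hfac q hqF)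
  have h2 : δ ^ (2 * D) ≤ δ ^ (F.natDegree + dX F) :=
    pow_le_pow_of_le_one hδ.le hδ1 (by have := hFB.1; omega)
  exact absurd (h2.trans h1) (not_le.2 hFδ)

/-- **One irreducible relation on an interval of scales.** -/
theorem one_irreducible (x : ℂ) (hx : MeasT x) (D : ℕ) (hD : 1 ≤ D) :
    ∃ κ : ℝ, 0 < κ ∧ ∀ w : ℝ, κ ≤ w → ∀ T : ℝ, ∃ c K : ℝ, 0 < c ∧ 0 < K ∧ ∀ t : ℂ, ‖t‖ ≤ T →
      ∀ Y Z : ℝ, 1 ≤ Y → Y ≤ Z →
        (∀ H : ℝ, Y ≤ H → H ≤ Z →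
          ∃ F : ℤ[X][X], F ≠ 0 ∧ Box D H F ∧ ‖vl x t F‖ < c * H ^ (-(2 * D * w))) →
        ∃ P : ℤ[X][X], Irreducible P ∧ Box D (K * Y) P ∧ ‖vl x t P‖ < Z ^ (-w) ∧
          ∀ H : ℝ, Y ≤ H → H ≤ Z → ∀ F : ℤ[X][X], F ≠ 0 → Box D H F →
            ‖vl x t F‖ < c * H ^ (-(2 * D * w)) → P ∣ F := by
  obtain ⟨κ, hκ, hcore⟩ := core_assoc x hx D hD
  obtain ⟨K, hK1, hfac⟩ := small_factor D hD
  refine ⟨κ, hκ, fun w hw T => ?_⟩
  obtain ⟨C, hC, hcore⟩ := hcore T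
  have hw0 : 0 < w := lt_of_lt_of_le hκ hw
  obtain ⟨c₀, hc₀⟩ : ∃ c₀ : ℝ, c₀ = min 1 (C * (2 * K) ^ (-κ)) := ⟨_, rfl⟩
  have hK0 : 0 < K := by linarith
  have hc₀0 : 0 < c₀ := by rw [hc₀]; positivity
  have hc₀1 : c₀ ≤ 1 := by rw [hc₀]; exact min_le_left _ _
  refine ⟨c₀ ^ (2 * D), K, by positivity, hK0, ?_⟩
  intro t ht Y Z hY1 hYZ hall
  -- the small irreducible factors
  have hsm : ∀ H : ℝ, 1 ≤ H → ∀ F : ℤ[X][X], F ≠ 0 → Box D H F →
      ‖vl x t F‖ < c₀ ^ (2 * D) * H ^ (-(2 * D * w)) →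
      ∃ q : ℤ[X][X], Irreducible q ∧ q ∣ F ∧ Box D (K * H) q ∧ ‖vl x t q‖ < c₀ * H ^ (-w) := by
    intro H hH F hF hFB hFv
    have hH0 : 0 < H := by linarith
    refine hfac x t H (c₀ * H ^ (-w)) (by positivity) ?_ F hF hFB ?_
    · calc c₀ * H ^ (-w) ≤ 1 * 1 := by
            have := Real.rpow_le_one_of_one_le_of_nonpos hH (show -w ≤ 0 by linarith)
            gcongr
        _ = 1 := by ring
    · have h1 : (c₀ * H ^ (-w)) ^ (2 * D) = c₀ ^ (2 * D) * H ^ (-(2 * D * w)) := by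
        rw [mul_pow, ← Real.rpow_natCast (H ^ (-w)), ← Real.rpow_mul hH0.le]
        congr 2
        push_cast
        ring
      rw [h1]
      exact hFv
  -- two of them at nearby scales are associated
  have huniq : ∀ H H' : ℝ, 1 ≤ H → H ≤ H' → H' ≤ 2 * H → ∀ q q' : ℤ[X][X], Irreducible q →
      Irreducible q' → Box D (K * H) q → Box D (K * H') q' → ‖vl x t q‖ < c₀ * H ^ (-w) →
      ‖vl x t q'‖ < c₀ * H' ^ (-w) → Associated q q' := by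
    intro H H' hH hHH' hH' q q' hq hq' hqB hqB' hqv hqv'
    by_contra hne
    have hH0 : 0 < H := by linarith
    have hH'0 : 0 < H' := by linarith
    have h1 := hcore t ht q q' hq hq' hne (K * H') (hqB.mono (by gcongr)) hqB'
    have h2 : max ‖vl x t q‖ ‖vl x t q'‖ < c₀ * H ^ (-w) := by
      refine max_lt hqv (hqv'.trans_le ?_)
      have : H' ^ (-w) ≤ H ^ (-w) := Real.rpow_le_rpow_of_nonpos hH0 hHH' (by linarith)
      gcongr
    have h3 : c₀ * H ^ (-w) ≤ C * (K * H') ^ (-κ) := by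
      have h4 : c₀ ≤ C * (2 * K) ^ (-κ) := by rw [hc₀]; exact min_le_right _ _
      have h5 : H ^ (-w) ≤ H ^ (-κ) := Real.rpow_le_rpow_of_exponent_le hH (by linarith)
      have h6 : (2 * K * H) ^ (-κ) ≤ (K * H') ^ (-κ) :=
        Real.rpow_le_rpow_of_nonpos (by positivity) (by nlinarith) (by linarith)
      calc c₀ * H ^ (-w) ≤ (C * (2 * K) ^ (-κ)) * H ^ (-κ) := by gcongr
        _ = C * (2 * K * H) ^ (-κ) := by
            rw [Real.mul_rpow (show 0 ≤ 2 * K by positivity) hH0.le]; ring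
        _ ≤ _ := by gcongr
    linarith
  -- the polynomial at the first scale
  obtain ⟨F₀, hF₀, hF₀B, hF₀v⟩ := hall Y le_rfl hYZ
  obtain ⟨P, hP, hPF₀, hPB, hPv⟩ := hsm Y hY1 F₀ hF₀ hF₀B hF₀v
  -- induction on the scale
  have hind : ∀ n : ℕ, ∀ H : ℝ, Y ≤ H → H ≤ Z → H ≤ 2 ^ n * Y → ∀ q : ℤ[X][X], Irreducible q →
      Box D (K * H) q → ‖vl x t q‖ < c₀ * H ^ (-w) → Associated P q := by
    intro n
    induction n with
    | zero =>
      intro H hYH hHZ hHn q hq hqB hqv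
      refine huniq Y H hY1 hYH ?_ P q hP hq hPB hqB hPv hqv
      rw [pow_zero] at hHn
      linarith
    | succ n ih =>
      intro H hYH hHZ hHn q hq hqB hqv
      obtain ⟨H₁, hH₁⟩ : ∃ H₁ : ℝ, H₁ = max Y (H / 2) := ⟨_, rfl⟩
      have a1 : Y ≤ H₁ := by rw [hH₁]; exact le_max_left _ _
      have a2 : H / 2 ≤ H₁ := by rw [hH₁]; exact le_max_right _ _
      have a3 : H₁ ≤ H := by rw [hH₁]; exact max_le hYH (by linarith)
      have a4 : H₁ ≤ 2 ^ n * Y := by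
        rw [hH₁]
        have h1 : (1 : ℝ) ≤ 2 ^ n := one_le_pow₀ (by norm_num)
        rw [pow_succ] at hHn
        exact max_le (by nlinarith) (by linarith)
      obtain ⟨F₁, hF₁, hF₁B, hF₁v⟩ := hall H₁ a1 (a3.trans hHZ)
      obtain ⟨q₁, hq₁, hq₁F, hq₁B, hq₁v⟩ := hsm H₁ (by linarith) F₁ hF₁ hF₁B hF₁v
      exact (ih H₁ a1 (a3.trans hHZ) a4 q₁ hq₁ hq₁B hq₁v).trans
        (huniq H₁ H (by linarith) a3 (by linarith) q₁ q hq₁ hq hq₁B hqB hq₁v hqv)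
  have hassoc : ∀ H : ℝ, Y ≤ H → H ≤ Z → ∀ q : ℤ[X][X], Irreducible q →
      Box D (K * H) q → ‖vl x t q‖ < c₀ * H ^ (-w) → Associated P q := by
    intro H hYH hHZ q hq hqB hqv
    obtain ⟨n, hn⟩ := pow_unbounded_of_one_lt (H / Y) (one_lt_two)
    refine hind n H hYH hHZ ?_ q hq hqB hqv
    have hY0 : 0 < Y := by linarith
    rw [div_lt_iff₀ hY0] at hn
    exact hn.le
  refine ⟨P, hP, hPB, ?_, ?_⟩
  · obtain ⟨F₁, hF₁, hF₁B, hF₁v⟩ := hall Z hYZ le_rfl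
    obtain ⟨q₁, hq₁, hq₁F, hq₁B, hq₁v⟩ := hsm Z (hY1.trans hYZ) F₁ hF₁ hF₁B hF₁v
    have h1 := hassoc Z hYZ le_rfl q₁ hq₁ hq₁B hq₁v
    have h2 : ‖vl x t P‖ = ‖vl x t q₁‖ := by
      obtain ⟨u, hu⟩ := h1
      obtain ⟨r, hr, hru⟩ := Polynomial.isUnit_iff.1 u.isUnit
      obtain ⟨s, hs, rfl⟩ := Polynomial.isUnit_iff.1 hr
      rw [← hu, vl_mul, ← hru, vl_C, aeval_C, eq_intCast, norm_mul, Complex.norm_intCast]
      rcases Int.isUnit_iff.1 hs with h | h <;> rw [h] <;> simp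
    rw [h2]
    refine hq₁v.trans_le ?_
    have h3 : 0 < Z ^ (-w) := Real.rpow_pos_of_pos (by linarith) _
    nlinarith
  · intro H hYH hHZ F hF hFB hFv
    obtain ⟨q, hq, hqF, hqB, hqv⟩ := hsm H (hY1.trans hYH) F hF hFB hFv
    exact (hassoc H hYH hHZ q hq hqB hqv).dvd.trans hqF

end Pool.Agent.Z3h92.Rel
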